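import Pool.Agent.Lib.MP_e1e19a_an.H26Local

/-!
A resonance curve which crosses the border of the region where one wave dominates.
-/

namespace Pool.Agent.Lib.MP_e1e19a_an

open Finset Real Filter Topology UpperHalfPlane
open scoped MatrixGroups

variable {ι : Type*}

theorem border (M : ι → SL(2, ℝ)) (o : ι) (ho : M o = 1) (hc : ∀ k, k ≠ o → M k 1 0 ≠ 0)
    (hp : ∀ k l, M k 1 0 * M l 1 1 = M l 1 0 * M k 1 1 → k = l)
    (hs : Summable fun k => √(M k • I).im) (i j : ι) (hi : i ≠ o) (hj : j ≠ o) (hij : i ≠ j)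
    (σ : ℝ) (hσ : σ = 1 ∨ σ = -1) {X : Type*} [TopologicalSpace X] [PreconnectedSpace X]
    (ζ : X → ℍ) (hζ : Continuous ζ)
    (res : ∀ t, al (M j) ((ζ t).re, (ζ t).im) = σ * al (M i) ((ζ t).re, (ζ t).im) ∧
      be (M j) ((ζ t).re, (ζ t).im) = -σ * be (M i) ((ζ t).re, (ζ t).im) ∧
      al (M i) ((ζ t).re, (ζ t).im) ≠ 0 ∧ be (M i) ((ζ t).re, (ζ t).im) ≠ 0) (a b : X)
    (ha : 2 * √(ζ a).im < ∑' k, √(M k • ζ a).im) (hb : ∑' k, √(M k • ζ b).im ≤ 2 * √(ζ b).im) :
    ∃ t, ∀ V ∈ 𝓝 (ζ t), Many M V := by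
  classical
  obtain ⟨μ, hμ⟩ : ∃ μ : X → ℝ, ∀ t, μ t = ∑' k, √(M k • ζ t).im - 2 * √(M o • ζ t).im :=
    ⟨_, fun _ => rfl⟩
  have cμ : Continuous μ := by
    have := (cont_wave M hs (fun _ _ => 0) fun _ => continuous_const).comp hζ
    simp only [cos_zero, mul_one, Function.comp_def] at this
    rw [funext hμ]
    exact this.sub (by fun_prop)
  have cβ : Continuous fun t => be (M i) ((ζ t).re, (ζ t).im) := continuous_iff_continuousAt.2
    fun t => ContinuousAt.comp (f := fun t => ((ζ t).re, (ζ t).im)) (cont_be _ (im_pos _))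
      (by fun_prop)
  obtain ⟨t, h1, h2⟩ : ∃ t ∈ closure {t | 0 < μ t}, μ t ≤ 0 := by
    by_contra hn
    push Not at hn
    have := (IsClopen.eq_univ ⟨isClosed_of_closure_subset hn, isOpen_lt continuous_const cμ⟩
      ⟨a, show 0 < μ a by rw [hμ, ho, one_smul]; linarith⟩).ge (Set.mem_univ b)
    rw [Set.mem_ofPred_eq, hμ, ho, one_smul] at this
    linarith
  refine ⟨t, fun V hV => ?_⟩
  have b0 := abs_pos.2 (res t).2.2.2
  have b1 : |be (M i) ((ζ t).re, (ζ t).im)| < 1 := by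
    rw [← sq_lt_one_iff_abs_lt_one]
    linarith [ab_sq (M i) (w := ((ζ t).re, (ζ t).im)) (im_pos _), sq_pos_of_ne_zero (res t).2.2.1]
  have am : ∀ k, 0 < √(M k • ζ t).im := fun k => sqrt_pos.2 (im_pos _)
  have pi0 := pi_pos
  have e1 : ∀ᶠ s in 𝓝 t, ∀ v ∈ Set.Icc (π / 3) π, 2 * μ s <
      √(M i • ζ s).im * (cos (be (M i) ((ζ s).re, (ζ s).im) * v) - cos v) :=
    isCompact_Icc.eventually_forall_of_forall_eventually fun v hv => ContinuousAt.eventually_lt
      (by fun_prop) (Continuous.continuousAt (Continuous.mul (by fun_prop)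
        ((continuous_cos.comp ((cβ.comp continuous_fst).mul continuous_snd)).sub (by fun_prop)))) (by
        have v0 : 0 < v := by linarith [hv.1]
        refine lt_of_le_of_lt (by linarith) (mul_pos (am i) (sub_pos.2 ?_))
        rw [← cos_abs (_ * _), abs_mul, abs_of_pos v0]
        exact cos_lt_cos_of_nonneg_of_le_pi (by positivity) hv.2 (by nlinarith))
  have e2 : ∀ᶠ s in 𝓝 t, μ s < min √(M i • ζ s).im √(M j • ζ s).im
      * (1 - |cos (π * be (M i) ((ζ s).re, (ζ s).im))|) := ContinuousAt.eventually_lt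
      (by fun_prop) (by fun_prop) (by
        refine lt_of_le_of_lt h2 (mul_pos (lt_min (am i) (am j)) (sub_pos.2 ?_))
        rw [← cos_abs, abs_mul, abs_of_pos pi0, abs_lt, ← cos_pi, ← cos_zero]
        exact ⟨cos_lt_cos_of_nonneg_of_le_pi (by positivity) le_rfl (by nlinarith),
          cos_lt_cos_of_nonneg_of_le_pi le_rfl (by nlinarith) (by positivity)⟩)
  have e3 : ∀ᶠ s in 𝓝 t, μ s < √(M i • ζ s).im :=
    ContinuousAt.eventually_lt (by fun_prop) (by fun_prop) (h2.trans_lt (am i))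
  obtain ⟨s, g0, g1, g2, g3, g4⟩ := ((mem_closure_iff_frequently.1 h1).and_eventually (e1.and
    (e2.and (e3.and (hζ.continuousAt.eventually (eventually_mem_nhds_iff.2 hV)))))).exists
  obtain ⟨T, u, k1, k2, k3, k4⟩ := model o i j (fun k => √(M k • ζ s).im)
    (fun k => al (M k) ((ζ s).re, (ζ s).im)) (fun k => be (M k) ((ζ s).re, (ζ s).im)) (μ s) σ
    (summ M hs _) (fun _ => sqrt_nonneg _) (hμ s) g0 (by simp [al, ho]) (by simp [be, ho])
    (fun k => by
      rw [← sq_le_one_iff_abs_le_one]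
      linarith [ab_sq (M k) (w := ((ζ s).re, (ζ s).im)) (im_pos _),
        sq_nonneg (al (M k) ((ζ s).re, (ζ s).im))])
    hi hj hij hσ (res s).1 (res s).2.1 (res s).2.2.1 (fun v hv => (g1 v hv).le) g2.le g3.le
  exact local_many M o ho hc hp hs (ζ s) _ T u _ k1 k2 (div_pos g0 four_pos) k3 k4 V g4

theorem hyperbola (M : ι → SL(2, ℝ)) (o : ι) (ho : M o = 1) (hc : ∀ k, k ≠ o → M k 1 0 ≠ 0)
    (hp : ∀ k l, M k 1 0 * M l 1 1 = M l 1 0 * M k 1 1 → k = l)
    (hs : Summable fun k => √(M k • I).im) (i j : ι) (hi : i ≠ o) (hj : j ≠ o) (hij : i ≠ j) :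
    ∃ z : ℍ, ∀ V ∈ 𝓝 z, Many M V := by
  classical
  wlog h : -(M i 1 1 / M i 1 0) < -(M j 1 1 / M j 1 0) generalizing i j
  · refine this j i hj hi hij.symm (lt_of_le_of_ne (not_lt.1 h) fun e => hij (hp _ _ ?_))
    have := hc i hi
    have := hc j hj
    field_simp at e
    linarith
  obtain ⟨p, hp1⟩ : ∃ p, M i 1 1 = -(M i 1 0 * p) ∧ p = -(M i 1 1 / M i 1 0) :=
    ⟨_, by have := hc i hi; field_simp, rfl⟩
  obtain ⟨q, hq1⟩ : ∃ q, M j 1 1 = -(M j 1 0 * q) ∧ q = -(M j 1 1 / M j 1 0) :=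
    ⟨_, by have := hc j hj; field_simp, rfl⟩
  rw [← hp1.2, ← hq1.2, ← sub_pos] at h
  obtain ⟨ζ, hζ, z1, z2⟩ : ∃ ζ : ℝ → ℍ, Continuous ζ ∧ (∀ t, (ζ t).re = q + exp t) ∧
      ∀ t, (ζ t).im ^ 2 = (q - p + exp t) * exp t :=
    ⟨fun t => ⟨⟨q + exp t, √((q - p + exp t) * exp t)⟩, sqrt_pos.2 (by positivity)⟩,
      Continuous.upperHalfPlaneMk (Complex.equivRealProdCLM.symm.continuous.comp
        (f := fun t => (q + exp t, √((q - p + exp t) * exp t))) (by fun_prop)) _,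
      fun _ => rfl, fun t => sq_sqrt (by positivity)⟩
  have am : ∀ γ (z : ℍ), √(γ • z).im = √z.im / √(QQ γ (z.re, z.im)) := fun γ z => by
    rw [im_eq, sqrt_div z.im_pos.le]
  have Qi : ∀ t, QQ (M i) ((ζ t).re, (ζ t).im) = M i 1 0 ^ 2 * (q - p + exp t) * (q - p + 2 * exp t) :=
    fun t => by simp only [QQ, mul_pow, z1, z2, hp1.1]; ring
  have Qj : ∀ t, QQ (M j) ((ζ t).re, (ζ t).im) = M j 1 0 ^ 2 * exp t * (q - p + 2 * exp t) :=
    fun t => by simp only [QQ, mul_pow, z1, z2, hq1.1]; ring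
  obtain ⟨a, ha⟩ : ∃ a, M j 1 0 ^ 2 * exp a * (q - p + 2 * exp a) < 1 := by
    have : Tendsto (fun a => M j 1 0 ^ 2 * exp a * (q - p + 2 * exp a)) atBot
        (𝓝 (M j 1 0 ^ 2 * 0 * (q - p + 2 * 0))) :=
      (tendsto_exp_atBot.const_mul _).mul ((tendsto_exp_atBot.const_mul _).const_add _)
    exact (this.eventually (gt_mem_nhds (by simp))).exists
  have lim := tendsto_tsum_of_dominated_convergence (𝓕 := atTop)
    (f := fun t k => (√(QQ (M k) ((ζ t).re, (ζ t).im)))⁻¹) (g := fun k => if k = o then 1 else 0)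
    (hs.mul_left 3) (fun k => by
      split_ifs with c
      · simp [c, ho, QQ]
      · refine (tendsto_sqrt_atTop.comp (tendsto_atTop_mono (fun t => ?_)
          ((tendsto_exp_atTop.const_mul_atTop h).const_mul_atTop
            (sq_pos_of_ne_zero (hc k c))))).inv_tendsto_atTop
        simp only [QQ, mul_pow, z2]
        nlinarith [sq_nonneg (M k 1 0 * (ζ t).re + M k 1 1), sq_nonneg (M k 1 0 * exp t)])
    ((tendsto_exp_atTop.eventually_ge_atTop (|q| + 1)).mono fun t ht k => by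
      have q1 := QQ_pos (M k) (w := ((ζ t).re, (ζ t).im)) (im_pos _)
      have q2 := QQ_pos (M k) (w := (I.re, I.im)) (im_pos _)
      rw [am, I_im, sqrt_one, Real.norm_eq_abs, abs_of_nonneg (by positivity), mul_one_div,
        inv_eq_one_div, div_le_div_iff₀ (sqrt_pos.2 q1) (sqrt_pos.2 (by simpa using q2)), one_mul]
      refine sqrt_le_iff.2 ⟨by positivity, ?_⟩
      rw [mul_pow, sq_sqrt q1.le]
      have e1 : exp t ^ 2 ≤ (ζ t).im ^ 2 := by rw [z2]; nlinarith [exp_pos t]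
      have e2 : (ζ t).re ^ 2 ≤ 4 * exp t ^ 2 := by
        rw [z1]; nlinarith [abs_le.1 (le_refl |q|), abs_nonneg q]
      have e3 : 1 ≤ exp t ^ 2 := by nlinarith [abs_nonneg q]
      simp only [QQ, I_re, mul_pow]
      nlinarith [sq_nonneg (2 * M k 1 0 * (ζ t).re + M k 1 1), sq_nonneg (M k 1 0 * (ζ t).re
        + M k 1 1), mul_le_mul_of_nonneg_left ((e2.trans (by linarith)) : _ ≤ 4 * (ζ t).im ^ 2)
        (sq_nonneg (M k 1 0)), mul_le_mul_of_nonneg_left (e3.trans e1) (sq_nonneg (M k 1 0))])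
  rw [tsum_ite_eq] at lim
  obtain ⟨b, hb⟩ := (lim.eventually (gt_mem_nhds one_lt_two)).exists
  obtain ⟨t, ht⟩ := border M o ho hc hp hs i j hi hj hij 1 (Or.inl rfl) ζ hζ (fun t => by
      have := hc i hi
      have := hc j hj
      have := exp_pos t
      have := (ζ t).im_pos
      have e0 : 0 < q - p + exp t := by positivity
      have e1 : 0 < q - p + 2 * exp t := by positivity
      have e2 : al (M i) ((ζ t).re, (ζ t).im) = -(2 * (ζ t).im / (q - p + 2 * exp t)) := by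
        rw [al, Qi, z1, hp1.1]; field_simp; ring
      have e3 : be (M i) ((ζ t).re, (ζ t).im) = (q - p) / (q - p + 2 * exp t) := by
        rw [be, Qi, mul_pow, z2]; field_simp; ring
      refine ⟨?_, ?_, by rw [e2, neg_ne_zero]; positivity, by rw [e3]; positivity⟩
      · rw [e2, al, Qj, z1, hq1.1]; field_simp; ring
      · rw [e3, be, Qj, mul_pow, z2]; field_simp; ring) a b
    (by
      refine lt_of_lt_of_le ?_ ((summ M hs _).sum_le_tsum {o, j} fun _ _ => sqrt_nonneg _)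
      have q1 := QQ_pos (M j) (w := ((ζ a).re, (ζ a).im)) (im_pos _)
      rw [sum_pair hj.symm, ho, one_smul, am, two_mul, add_lt_add_iff_left,
        lt_div_iff₀ (sqrt_pos.2 q1)]
      exact mul_lt_of_lt_one_right (sqrt_pos.2 (im_pos _)) ((sqrt_lt' one_pos).2 (by rw [Qj]; linarith)))
    (by
      simp only [am, div_eq_mul_inv, tsum_mul_left]
      rw [mul_comm]
      exact mul_le_mul_of_nonneg_right hb.le (sqrt_nonneg _))
  exact ⟨_, ht⟩

end Pool.Agent.Lib.MP_e1e19a_an
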