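import Pool.Agent.Lib.MP_e1e19a_an.H26Dim

/-!
Compact nodal domains inside the convex core, from domination above a limit point.
-/

namespace Pool.Agent.Lib.MP_e1e19a_an

open Real Filter Topology UpperHalfPlane Set Metric
open scoped MatrixGroups

variable {Γ : Subgroup SL(2, ℝ)}

theorem norm_sq_eq (z : ℍ) : ‖(z : ℂ)‖ ^ 2 = z.re ^ 2 + z.im ^ 2 := by
  rw [Complex.sq_norm]; simp [Complex.normSq_apply, sq]

theorem tri_mem {Λ : Set ℝ} {a r b : ℝ} (ha : a ∈ Λ) (hr : r ∈ Λ) (hb : b ∈ Λ) (h1 : a < r)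
    (h2 : r < b) (z : ℍ) (g1 : 0 < (z.re - r) * (z.re - b) + z.im ^ 2)
    (g2 : (z.re - a) * (z.re - b) + z.im ^ 2 < 0) (g3 : 0 < (z.re - a) * (z.re - r) + z.im ^ 2) :
    z ∈ hull Λ := fun A B C H => by
  refine nonneg_of_mul_nonneg_left (b := (r - a) * (b - a) * (b - r)) (le_of_le_of_eq (add_nonneg
    (add_nonneg (mul_nonneg (mul_pos g1 (sub_pos.2 h2)).le (H a ha)) (mul_nonneg (mul_pos
    (neg_pos.2 g2) (sub_pos.2 (h1.trans h2))).le (H r hr))) (mul_nonneg (mul_pos g3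
    (sub_pos.2 h1)).le (H b hb))) ?_) (mul_pos (mul_pos (by linarith) (by linarith)) (by linarith))
  rw [norm_sq_eq]
  ring

theorem hull_smul {R : ℝ} (hR : ∀ w ∈ orbitI Γ, ‖w‖ ≤ R) (γ : Γ) {z : ℍ}
    (hz : z ∈ hull (limitSet Γ)) : γ • z ∈ hull (limitSet Γ) := fun A B C H => by
  have e1 := coe_smul_mul (γ : SL(2, ℝ)) z
  have e2 := fun r => lim_smul hR γ (r := r)
  have e3 := QQ_pos (γ : SL(2, ℝ)) (w := (z.re, z.im)) z.im_pos
  rw [QQ] at e3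
  rw [Subgroup.smul_def]
  generalize (γ : SL(2, ℝ)) 0 0 = a, (γ : SL(2, ℝ)) 0 1 = b, (γ : SL(2, ℝ)) 1 0 = c,
    (γ : SL(2, ℝ)) 1 1 = d, (γ : SL(2, ℝ)) • z = w at *
  have := hz (A * a ^ 2 + B * a * c + C * c ^ 2) (2 * A * a * b + B * (a * d + b * c) + 2 * C * c * d)
    (A * b ^ 2 + B * b * d + C * d ^ 2) fun r hr => by
      have h0 := (e2 r hr).1
      refine (mul_nonneg (H _ (e2 r hr).2) (sq_nonneg (c * r + d))).trans_eq ?_
      rw [add_mul, add_mul, mul_assoc, ← mul_pow, div_mul_cancel₀ _ h0, mul_assoc, sq (c * r + d),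
        ← mul_assoc (_ / _), div_mul_cancel₀ _ h0]
      ring
  have r1 := congrArg Complex.re e1
  have r2 := congrArg Complex.im e1
  simp at r1 r2
  rw [norm_sq_eq] at this ⊢
  refine nonneg_of_mul_nonneg_left (this.trans_eq ?_) e3
  linear_combination (-(A * (w.re * (c * z.re + d) - w.im * (c * z.im) + (a * z.re + b)))
    - B * (c * z.re + d)) * r1 + (-(A * (w.re * (c * z.im) + w.im * (c * z.re + d) + a * z.im))
    - B * (c * z.im)) * r2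

theorem near_pole (h : Schottky Γ) {r x : ℝ} (hr : r ∈ limitSet Γ) (hx : x ∈ limitSet Γ)
    (hxr : x ≠ r) {δ : ℝ} (hδ : 0 < δ) : ∃ (w : ℍ) (g : Γ), w.re = r ∧ w.im < δ ∧
      w.im < (g • w).im ∧ (g : SL(2, ℝ)) 1 0 ≠ 0 ∧ ∃ p, (g : SL(2, ℝ)) 1 1 = -((g : SL(2, ℝ)) 1 0 * p)
      ∧ p ≠ r ∧ |p - r| < δ := by
  obtain ⟨R, hR⟩ := h.bdd.exists_norm_le
  obtain ⟨D, hD⟩ := conical h 1
  have L0 := abs_pos.2 (sub_ne_zero.2 hxr)
  have R0 : 0 < R := by linarith [abs_sub x r, lim_bd hR hx, lim_bd hR hr]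
  obtain ⟨ρ, ⟨a1, a2, a3, a4, a5⟩, ρ0⟩ := (show ∀ᶠ ρ in 𝓝[>] (0 : ℝ), (ρ < 1 ∧ ρ < δ ∧
      ρ * exp D < 1 ∧ 4 * R * (ρ * exp D) < |x - r| ∧ 4 * R * (ρ * exp D) < δ) ∧ 0 < ρ by
    refine (eventually_nhdsWithin_of_eventually_nhds ?_).and self_mem_nhdsWithin
    refine .and ?_ (.and ?_ (.and ?_ (.and ?_ ?_))) <;>
      exact ContinuousAt.eventually_lt (by fun_prop) (by fun_prop)
        (by linarith)).exists
  obtain ⟨w, w1, w2⟩ : ∃ w : ℍ, w.re = r ∧ w.im = ρ := ⟨⟨⟨r, ρ⟩, ρ0⟩, rfl, rfl⟩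
  obtain ⟨g, hg⟩ := hD w (w1 ▸ hr) (w2 ▸ a1.le)
  have e1 := (im_le_im_mul_exp_dist I (g • w)).trans (mul_le_mul_of_nonneg_left (exp_le_exp.2
    ((_root_.dist_comm _ _).trans_le hg)) (im_pos _).le)
  rw [I_im] at e1
  refine ⟨w, g, w1, w2 ▸ a2, lt_of_mul_lt_mul_right (w2 ▸ a3.trans_le e1) (exp_pos D).le, ?_⟩
  rw [Subgroup.smul_def, im_eq, div_mul_eq_mul_div, le_div_iff₀ (QQ_pos _ w.im_pos), one_mul, w1,
    w2, QQ] at e1
  have e0 := det2 (g : SL(2, ℝ))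
  obtain ⟨b1, b2⟩ := lim_smul hR g hr
  obtain ⟨b3, b4⟩ := lim_smul hR g hx
  generalize (g : SL(2, ℝ)) 0 0 = a, (g : SL(2, ℝ)) 0 1 = b, (g : SL(2, ℝ)) 1 0 = c,
    (g : SL(2, ℝ)) 1 1 = d at *
  have e2 : |x - r| ≤ 2 * R * ((|c| * |x - r| + |c * r + d|) * |c * r + d|) := by
    have : x - r = ((a * x + b) / (c * x + d) - (a * r + b) / (c * r + d))
        * ((c * x + d) * (c * r + d)) := by
      rw [div_sub_div _ _ b3 b1, div_mul_cancel₀ _ (mul_ne_zero b3 b1)]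
      linear_combination (r - x) * e0
    nth_rw 1 [this]
    rw [abs_mul, abs_mul, ← abs_mul c]
    gcongr
    · linarith [abs_sub ((a * x + b) / (c * x + d)) ((a * r + b) / (c * r + d)), lim_bd hR b2,
        lim_bd hR b4]
    · exact le_trans (le_of_eq (by ring_nf)) (abs_add_le _ _)
  have e3 : |c * r + d| ^ 2 ≤ ρ * exp D := by rw [sq_abs]; nlinarith [sq_nonneg (c * ρ)]
  have e4 : 1 ≤ 4 * R * (|c| * |c * r + d|) := le_of_mul_le_mul_right (by nlinarith) L0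
  have c0 : c ≠ 0 := fun e => by simp [e] at e4; linarith
  refine ⟨c0, -(d / c), by field_simp, fun e => b1 (by rw [← e]; field_simp; ring), ?_⟩
  have e5 := abs_pos.2 b1
  rw [show -(d / c) - r = -((c * r + d) / c) by field_simp; ring, abs_neg, abs_div,
    div_lt_iff₀ (abs_pos.2 c0)]
  refine lt_of_mul_lt_mul_left (a := 4 * R * |c * r + d|) ?_ (by positivity)
  nlinarith [mul_le_mul_of_nonneg_left e4 hδ.le]

theorem core (h : Schottky Γ) (hs : Summable fun k : Γ => √((k : SL(2, ℝ)) • I).im) {a r b : ℝ}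
    (ha : a ∈ limitSet Γ) (hr : r ∈ limitSet Γ) (hb : b ∈ limitSet Γ) (h1 : a < r) (h2 : r < b)
    (z : ℍ) (z1 : z.re = r) (z2 : z.im ^ 2 = (r - a) * (b - r))
    (hz : ∑' k : Γ, √((k : SL(2, ℝ)) • z).im < 2 * √z.im) :
    ∃ w ∈ interior (hull (limitSet Γ)), ∀ V ∈ 𝓝 w, Many (fun k : Γ => (k : SL(2, ℝ))) V := by
  classical
  have cA := cont_wave _ hs (fun _ _ => 0) fun _ => continuous_const
  simp only [cos_zero, mul_one] at cA
  obtain ⟨ζ, cζ, k1, k2⟩ : ∃ ζ : ℝ × ℝ → ℍ, Continuous ζ ∧ (∀ p, (ζ p).re = p.1) ∧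
      ∀ p, (ζ p).im = exp p.2 := ⟨fun p => ⟨⟨p.1, exp p.2⟩, exp_pos _⟩,
    Continuous.upperHalfPlaneMk (Complex.equivRealProdCLM.symm.continuous.comp
      (f := fun p : ℝ × ℝ => (p.1, exp p.2)) (by fun_prop)) _, fun _ => rfl, fun _ => rfl⟩
  have k3 : ∀ w : ℍ, ζ (w.re, log w.im) = w := fun w =>
    emb.injective (Prod.ext (k1 _) ((k2 _).trans (exp_log w.im_pos)))
  obtain ⟨t₁, t1, t2⟩ := (show ∀ᶠ t in 𝓝[<] (log z.im),
      ∑' k : Γ, √((k : SL(2, ℝ)) • ζ (r, t)).im < 2 * √(ζ (r, t)).im ∧ t < log z.im from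
    (eventually_nhdsWithin_of_eventually_nhds (ContinuousAt.eventually_lt
    (cA.comp (f := fun t => ζ (r, t)) (by fun_prop)).continuousAt (by fun_prop)
    (by simpa only [Function.comp, ← z1, k3] using hz))).and self_mem_nhdsWithin).exists
  have t3 : exp t₁ ^ 2 < (r - a) * (b - r) :=
    z2 ▸ pow_lt_pow_left₀ ((lt_log_iff_exp_lt z.im_pos).1 t2) (exp_pos _).le two_ne_zero
  obtain ⟨w, g, w1, w2, w3, w4, -⟩ := near_pole h hr ha h1.ne (exp_pos t₁)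
  have one : ∀ g : Γ, (g : SL(2, ℝ)) 1 0 ≠ 0 → g ≠ 1 := by rintro _ h rfl; simp at h
  have w5 : 2 * √w.im < ∑' k : Γ, √((k : SL(2, ℝ)) • w).im := by
    refine lt_of_lt_of_le ?_ ((summ _ hs _).sum_le_tsum {1, g} fun _ _ => sqrt_nonneg _)
    rw [Finset.sum_pair (one g w4).symm, Subgroup.coe_one, one_smul, two_mul, add_lt_add_iff_left]
    exact sqrt_lt_sqrt w.im_pos.le w3
  have y0 := w.im_pos
  obtain ⟨δ, δ0, hδ⟩ := Metric.eventually_nhds_iff.1 (show ∀ᶠ x in 𝓝 r,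
      2 * √(ζ (x, log w.im)).im < ∑' k : Γ, √((k : SL(2, ℝ)) • ζ (x, log w.im)).im ∧
      ∑' k : Γ, √((k : SL(2, ℝ)) • ζ (x, t₁)).im < 2 * √(ζ (x, t₁)).im ∧
      0 < (x - r) * (x - b) + w.im ^ 2 ∧ (x - a) * (x - b) + exp t₁ ^ 2 < 0 ∧
      0 < (x - a) * (x - r) + w.im ^ 2 from
    .and (ContinuousAt.eventually_lt (by fun_prop) (cA.comp (f := fun x => ζ (x, log w.im))
      (by fun_prop)).continuousAt (by simpa only [Function.comp, ← w1, k3] using w5))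
    (.and (ContinuousAt.eventually_lt (cA.comp (f := fun x => ζ (x, t₁))
      (by fun_prop)).continuousAt (by fun_prop) t1)
    (.and (ContinuousAt.eventually_lt (by fun_prop) (by fun_prop) (by simpa using sq_pos_of_pos y0))
    (.and (ContinuousAt.eventually_lt (by fun_prop) (by fun_prop) (by linarith))
      (ContinuousAt.eventually_lt (by fun_prop) (by fun_prop) (by simpa using sq_pos_of_pos y0))))))
  obtain ⟨-, i, -, -, -, i1, p, i2, i3, i4⟩ := near_pole h hr ha h1.ne (lt_min δ0 y0)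
  obtain ⟨-, j, -, -, -, j1, q, j2, -, j4⟩ := near_pole h hr ha h1.ne (abs_pos.2 (sub_ne_zero.2 i3))
  have pq : q - p ≠ 0 := fun e => by rw [sub_eq_zero.1 e] at j4; exact lt_irrefl _ j4
  have i5 := abs_lt.1 (i4.trans_le (min_le_left _ _))
  have i6 := abs_lt.1 (i4.trans_le (min_le_right _ _))
  have j5 := abs_lt.1 ((j4.trans i4).trans_le (min_le_left _ _))
  have j6 := abs_lt.1 ((j4.trans i4).trans_le (min_le_right _ _))
  obtain ⟨d1, d2, d3, d4, d5⟩ := hδ (y := (p + q) / 2) (by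
    rw [Real.dist_eq, abs_lt]; constructor <;> linarith)
  have le : log w.im ≤ t₁ := ((log_lt_iff_lt_exp y0).2 w2).le
  have := Subtype.preconnectedSpace (isPreconnected_Icc (a := log w.im) (b := t₁))
  have bd : ∀ t : Icc (log w.im) t₁, w.im ^ 2 ≤ exp t ^ 2 ∧ exp t ^ 2 ≤ exp t₁ ^ 2 := fun t =>
    ⟨pow_le_pow_left₀ y0.le ((log_le_iff_le_exp y0).1 t.2.1) 2,
      pow_le_pow_left₀ (exp_pos _).le (exp_le_exp.2 t.2.2) 2⟩
  obtain ⟨t, ht⟩ := border (fun k : Γ => (k : SL(2, ℝ))) 1 rfl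
    (fun k hk e => hk (eq_one Γ h.free hs k e)) (pole_inj Γ h.free hs) hs i j (one i i1) (one j j1)
    (fun e => by
      rw [← e, i2, neg_inj] at j2
      exact pq (sub_eq_zero.2 (mul_left_cancel₀ i1 j2).symm)) (-1) (Or.inr rfl)
    (fun t : Icc (log w.im) t₁ => ζ ((p + q) / 2, t)) (by fun_prop) (fun t => by
      have := exp_pos (t : ℝ)
      have e0 : 0 < (q - p) ^ 2 + 4 * exp t ^ 2 := by positivity
      have Qi : QQ (i : SL(2, ℝ)) ((p + q) / 2, exp t)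
        = (i : SL(2, ℝ)) 1 0 ^ 2 * ((q - p) ^ 2 + 4 * exp t ^ 2) / 4 := by rw [QQ, i2]; ring
      have Qj : QQ (j : SL(2, ℝ)) ((p + q) / 2, exp t)
        = (j : SL(2, ℝ)) 1 0 ^ 2 * ((q - p) ^ 2 + 4 * exp t ^ 2) / 4 := by rw [QQ, j2]; ring
      have e2 : al (i : SL(2, ℝ)) ((p + q) / 2, exp t)
          = -(4 * exp t * (q - p) / ((q - p) ^ 2 + 4 * exp t ^ 2)) := by
        rw [al, Qi, i2]; field_simp; ring
      have e3 : be (i : SL(2, ℝ)) ((p + q) / 2, exp t)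
          = ((q - p) ^ 2 - 4 * exp t ^ 2) / ((q - p) ^ 2 + 4 * exp t ^ 2) := by
        rw [be, Qi]; field_simp; ring
      simp only [k1, k2]
      refine ⟨?_, ?_, by rw [e2, neg_ne_zero]; positivity, ?_⟩
      · rw [e2, al, Qj, j2]; field_simp; ring
      · rw [e3, be, Qj]; field_simp; ring
      · rw [e3]
        exact div_ne_zero (ne_of_lt (by nlinarith [(bd t).1])) e0.ne')
    ⟨_, left_mem_Icc.2 le⟩ ⟨_, right_mem_Icc.2 le⟩ d1 d2.le
  refine ⟨_, mem_interior.2 ⟨{z : ℍ | 0 < (z.re - r) * (z.re - b) + z.im ^ 2 ∧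
    (z.re - a) * (z.re - b) + z.im ^ 2 < 0 ∧ 0 < (z.re - a) * (z.re - r) + z.im ^ 2},
    fun z hz => tri_mem ha hr hb h1 h2 z hz.1 hz.2.1 hz.2.2, (isOpen_lt (by fun_prop)
    (by fun_prop)).and ((isOpen_lt (by fun_prop) (by fun_prop)).and (isOpen_lt (by fun_prop)
    (by fun_prop))), ?_⟩, ht⟩
  simp only [mem_ofPred_eq, k1, k2]
  exact ⟨by linarith [(bd t).1], by linarith [(bd t).2], by linarith [(bd t).1]⟩

end Pool.Agent.Lib.MP_e1e19a_an
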