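import Mathlib

/-!
Limit set, convex hull, Eisenstein series and nodal domains of a Fuchsian group, in the upper
half-plane model normalised so that the chosen direction at infinity is the point `∞`.
-/

namespace Pool.Agent.Lib.MP_e1e19a_an

open UpperHalfPlane
open scoped MatrixGroups

/-- The quotient surface `X = Γ \ ℍ` with the quotient topology. -/
abbrev Surf (Γ : Subgroup SL(2, ℝ)) := Quotient (MulAction.orbitRel Γ ℍ)

/-- The projection `ℍ → X`. -/
noncomputable abbrev proj (Γ : Subgroup SL(2, ℝ)) : ℍ → Surf Γ := Quotient.mk _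

/-- The orbit of `i`, as a set of complex numbers. -/
def orbitI (Γ : Subgroup SL(2, ℝ)) : Set ℂ := Set.range fun γ : Γ => ((γ • I : ℍ) : ℂ)

/-- The real limit points of the orbit of `i`. -/
def limitSet (Γ : Subgroup SL(2, ℝ)) : Set ℝ := {r | (r : ℂ) ∈ closure (orbitI Γ)}

/-- The hyperbolic convex hull of a set `Λ` of real boundary points: the intersection of all
closed half-planes `A |z| ^ 2 + B Re z + C ≥ 0` whose closure contains `Λ`. -/
def hull (Λ : Set ℝ) : Set ℍ :=
  {z | ∀ A B C : ℝ, (∀ r ∈ Λ, 0 ≤ A * r ^ 2 + B * r + C) → 0 ≤ A * ‖(z : ℂ)‖ ^ 2 + B * z.re + C}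

/-- `Γ` is a discrete torsion-free convex co-compact group with at least two limit points, and `∞`
is not a limit point: `Γ` is discrete and acts freely, the orbit of `i` is bounded in `ℂ`, and the
convex hull of the limit set is covered by the translates of a compact set. -/
structure Schottky (Γ : Subgroup SL(2, ℝ)) : Prop where
  discrete : DiscreteTopology Γ
  free : ∀ (γ : Γ) (z : ℍ), γ • z = z → γ = 1
  bdd : Bornology.IsBounded (orbitI Γ)
  two : (limitSet Γ).Nontrivial
  cocompact : ∃ K : Set ℍ, IsCompact K ∧ ∀ z ∈ hull (limitSet Γ), ∃ γ : Γ, γ • z ∈ K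

/-- The Eisenstein series for the direction `∞`: the sum of the Poisson kernels `Im (γ z) ^ s`. -/
noncomputable def eis (Γ : Subgroup SL(2, ℝ)) (s : ℂ) (z : ℍ) : ℂ :=
  ∑' γ : Γ, (((γ • z).im : ℝ) : ℂ) ^ s

/-- `D` is a nodal domain on `X` of the function `F` on `ℍ`: a connected component of the
complement of the image of the zero set of `F`. -/
def IsNodalDomain (Γ : Subgroup SL(2, ℝ)) (F : ℍ → ℝ) (D : Set (Surf Γ)) : Prop :=
  ∃ q ∉ proj Γ '' {z | F z = 0}, D = connectedComponentIn (proj Γ '' {z | F z = 0})ᶜ q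

end Pool.Agent.Lib.MP_e1e19a_an
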