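import Pool.Agent.Lib.MP_e1e19a_an.H26Quot

/-!
If the limit set of a convex co-compact group has dimension less than `1/2`, then the Eisenstein
series converges absolutely on the line `Re s = 1/2`.
-/

namespace Pool.Agent.Lib.MP_e1e19a_an

open Real Filter Topology UpperHalfPlane Set Metric
open scoped MatrixGroups ENNReal NNReal

theorem small_cover {Λ : Set ℝ} (hK : IsCompact Λ) (hd : dimH Λ < 1 / 2) {ε : ℝ} (hε : 0 < ε) :
    ∃ (J : Finset ℕ) (W : ℕ → Set ℝ) (τ : ℕ → ℝ), (∀ n, 0 < τ n) ∧ (∀ x ∈ Λ, ∃ n ∈ J, x ∈ W n) ∧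
      (∀ n, ∀ x ∈ W n, ∀ y ∈ W n, |x - y| ≤ τ n) ∧ ∑ n ∈ J, √(τ n) ≤ ε := by
  have h0 := hausdorffMeasure_of_dimH_lt (s := Λ) (d := 1 / 2) (by simpa using hd)
  rw [MeasureTheory.Measure.hausdorffMeasure_apply] at h0
  simp only [ENNReal.iSup_eq_zero] at h0
  have := (h0 1 one_pos).trans_lt (ENNReal.ofReal_pos.2 (half_pos hε))
  simp only [iInf_lt_iff] at this
  obtain ⟨t, t1, t2, t3⟩ := this
  obtain ⟨δ, δ0, c, c1, c2⟩ := posSumOfEncodable (by positivity : 0 < ε / 4) ℕ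
  obtain ⟨J, hJ⟩ := hK.elim_finite_subcover (fun n => thickening (δ n ^ 2) (t n))
    (fun _ => isOpen_thickening) (t1.trans (iUnion_mono fun n =>
      self_subset_thickening (pow_pos (δ0 n) 2) _))
  have fin : ∀ n, ediam (t n) ≠ ⊤ := fun n => ne_top_of_le_ne_top ENNReal.one_ne_top (t2 n)
  refine ⟨J, _, fun n => diam (t n) + 2 * δ n ^ 2, fun n => by have := δ0 n; positivity,
    fun x hx => by simpa using hJ hx, fun n x hx y hy => ?_, ?_⟩
  · obtain ⟨x', a1, a2⟩ := mem_thickening_iff.1 hx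
    obtain ⟨y', b1, b2⟩ := mem_thickening_iff.1 hy
    have := dist_triangle4_right x y x' y'
    rw [← Real.dist_eq]
    linarith [dist_le_diam_of_mem' (fin n) a1 b1]
  · have a1 : ∑ n ∈ J, √(diam (t n)) ≤ ε / 2 := by
      rw [← ENNReal.ofReal_le_ofReal_iff (half_pos hε).le,
        ENNReal.ofReal_sum_of_nonneg fun _ _ => sqrt_nonneg _]
      refine le_trans (Finset.sum_le_sum fun n _ => ?_) ((ENNReal.sum_le_tsum J).trans t3.le)
      rcases (t n).eq_empty_or_nonempty with e | e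
      · simp [e]
      · rw [iSup_pos e, sqrt_eq_rpow, ← ENNReal.ofReal_rpow_of_nonneg diam_nonneg (by norm_num), diam,
          ENNReal.ofReal_toReal (fin n)]
        simp
    have a2 := (sum_le_hasSum J (fun n _ => (δ0 n).le) c1).trans c2
    refine (Finset.sum_le_sum (g := fun n => √(diam (t n)) + 2 * δ n) fun n _ => ?_).trans ?_
    · have := δ0 n
      refine sqrt_le_iff.2 ⟨by positivity, ?_⟩
      nlinarith [sq_sqrt (diam_nonneg (s := t n)), sqrt_nonneg (diam (t n))]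
    · rw [Finset.sum_add_distrib, ← Finset.mul_sum]
      linarith

theorem coe_smul_mul (γ : SL(2, ℝ)) (z : ℍ) : ((γ • z : ℍ) : ℂ) * (γ 1 0 * z + γ 1 1)
    = γ 0 0 * z + γ 0 1 := by
  rw [coe_specialLinearGroup_apply]
  exact div_mul_cancel₀ _ (denom_ne_zero (Matrix.SpecialLinearGroup.mapGL ℝ γ) z)

theorem norm_den (γ : SL(2, ℝ)) (z : ℍ) :
    ‖(γ 1 0 * z + γ 1 1 : ℂ)‖ ^ 2 = QQ γ (z.re, z.im) := by
  rw [Complex.sq_norm]
  simp [Complex.normSq_apply, QQ, sq]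

variable {Γ : Subgroup SL(2, ℝ)}

theorem lim_bd {R : ℝ} (hR : ∀ w ∈ orbitI Γ, ‖w‖ ≤ R) {r : ℝ} (hr : r ∈ limitSet Γ) : |r| ≤ R := by
  have : ‖(r : ℂ)‖ ≤ R := closure_minimal hR (isClosed_le continuous_norm continuous_const) hr
  simpa using this

theorem lim_smul {R : ℝ} (hR : ∀ w ∈ orbitI Γ, ‖w‖ ≤ R) (γ : Γ) {r : ℝ} (hr : r ∈ limitSet Γ) :
    (γ : SL(2, ℝ)) 1 0 * r + (γ : SL(2, ℝ)) 1 1 ≠ 0 ∧ ((γ : SL(2, ℝ)) 0 0 * r + (γ : SL(2, ℝ)) 0 1)
      / ((γ : SL(2, ℝ)) 1 0 * r + (γ : SL(2, ℝ)) 1 1) ∈ limitSet Γ := by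
  have h1 : ∀ w ∈ orbitI Γ, ∃ w' ∈ orbitI Γ, w' * ((γ : SL(2, ℝ)) 1 0 * w + (γ : SL(2, ℝ)) 1 1)
      = (γ : SL(2, ℝ)) 0 0 * w + (γ : SL(2, ℝ)) 0 1 ∧ 0 < w.im := by
    rintro _ ⟨g, rfl⟩
    exact ⟨_, ⟨γ * g, rfl⟩, by simp only [mul_smul]; exact coe_smul_mul _ _, im_pos _⟩
  have h2 : (γ : SL(2, ℝ)) 1 0 * r + (γ : SL(2, ℝ)) 1 1 ≠ 0 := fun e => by
    have := closure_minimal (t := {w : ℂ | ‖(γ : SL(2, ℝ)) 0 0 * w + (γ : SL(2, ℝ)) 0 1‖ ≤
      R * ‖(γ : SL(2, ℝ)) 1 0 * w + (γ : SL(2, ℝ)) 1 1‖}) (fun w hw => by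
        obtain ⟨w', a1, a2, -⟩ := h1 w hw
        rw [mem_ofPred_eq, ← a2, norm_mul]
        exact mul_le_mul_of_nonneg_right (hR _ a1) (norm_nonneg _))
      (isClosed_le (by fun_prop) (by fun_prop)) hr
    rw [mem_ofPred_eq] at this
    norm_cast at this
    rw [e, norm_zero, mul_zero, norm_le_zero_iff] at this
    exact one_ne_zero (α := ℝ) (by
      linear_combination (γ : SL(2, ℝ)) 0 0 * e - (γ : SL(2, ℝ)) 1 0 * this - det2 γ.1)
  have h3 := mem_closure_image (f := fun w : ℂ => ((γ : SL(2, ℝ)) 0 0 * w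
    + (γ : SL(2, ℝ)) 0 1) / ((γ : SL(2, ℝ)) 1 0 * w + (γ : SL(2, ℝ)) 1 1)) (ContinuousAt.div
    (by fun_prop) (by fun_prop) (by exact_mod_cast h2)) hr
  refine ⟨h2, closure_mono ?_ (by push_cast; exact h3)⟩
  rintro _ ⟨w, hw, rfl⟩
  obtain ⟨w', a1, a2, a3⟩ := h1 w hw
  simp only [← a2]
  exact (mul_div_cancel_right₀ _ (denom_ne_zero_of_im (Matrix.SpecialLinearGroup.mapGL ℝ
    (γ : SL(2, ℝ))) a3.ne')).symm ▸ a1

theorem shadow (h : Schottky Γ) : ∃ C > 0, ∀ γ : Γ, ∃ r ∈ limitSet Γ,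
    ‖((γ • I : ℍ) : ℂ) - r‖ ≤ C * (γ • I : ℍ).im := by
  obtain ⟨R, hR⟩ := h.bdd.exists_norm_le
  obtain ⟨p, hp, q, hq, hpq⟩ := h.two
  have L0 : 0 < |p - q| := abs_pos.2 (sub_ne_zero.2 hpq)
  have R0 := (abs_nonneg _).trans (lim_bd hR hp)
  refine ⟨(R + 1) * (2 * (R + 1) / |p - q|), by positivity, fun γ => ?_⟩
  obtain ⟨a, ha⟩ : ∃ a, a = (γ : SL(2, ℝ)) 0 0 := ⟨_, rfl⟩
  obtain ⟨b, hb⟩ : ∃ a, a = (γ : SL(2, ℝ)) 0 1 := ⟨_, rfl⟩
  obtain ⟨c, hc⟩ : ∃ a, a = (γ : SL(2, ℝ)) 1 0 := ⟨_, rfl⟩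
  obtain ⟨d, hd⟩ : ∃ a, a = (γ : SL(2, ℝ)) 1 1 := ⟨_, rfl⟩
  have e0 := det2 (γ : SL(2, ℝ))
  have e1 := coe_smul_mul (γ : SL(2, ℝ)) I
  have e2 := norm_den (γ : SL(2, ℝ)) I
  have e3 := im_eq (γ : SL(2, ℝ)) I
  have e4 := QQ_pos (γ : SL(2, ℝ)) (w := (I.re, I.im)) (im_pos _)
  rw [← e2, I_im] at e3
  rw [← e2] at e4
  simp only [← ha, ← hb, ← hc, ← hd, coe_I] at e0 e1 e3 e4
  have n0 : 0 < ‖c * Complex.I + d‖ := lt_of_le_of_ne (norm_nonneg _) fun e => by simp [← e] at e4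
  obtain ⟨r, hr, h1⟩ : ∃ r ∈ limitSet Γ, ‖c * Complex.I + d‖ * |p - q| ≤ 2 * (R + 1) * |c * r + d| := by
    have a1 : ‖c * Complex.I + d‖ * |p - q| ≤ (R + 1) * |c * p + d| + (R + 1) * |c * q + d| := by
      have : (c * Complex.I + d) * (p - q : ℝ) = (Complex.I - q) * (c * p + d : ℝ)
        - (Complex.I - p) * (c * q + d : ℝ) := by push_cast; ring
      rw [← Real.norm_eq_abs, ← Complex.norm_real, ← norm_mul, this]
      refine (norm_sub_le _ _).trans ?_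
      simp only [norm_mul, Complex.norm_real, Real.norm_eq_abs]
      gcongr <;> refine (norm_sub_le _ _).trans ?_ <;> simp [add_comm, lim_bd hR hp, lim_bd hR hq]
    rcases le_total |c * p + d| |c * q + d| with g | g
    · exact ⟨q, hq, by nlinarith⟩
    · exact ⟨p, hp, by nlinarith⟩
  obtain ⟨g1, g2⟩ := lim_smul hR γ hr
  rw [← hc, ← hd] at g1
  rw [← ha, ← hb, ← hc, ← hd] at g2
  refine ⟨_, g2, ?_⟩
  have g3 : ((c * r + d : ℝ) : ℂ) ≠ 0 := Complex.ofReal_ne_zero.2 g1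
  have g4 : (((γ • I : ℍ) : ℂ) - ((a * r + b) / (c * r + d) : ℝ)) * (c * Complex.I + d)
      * (c * r + d : ℝ) = Complex.I - r := by
    have : (a : ℂ) * d - b * c = 1 := by exact_mod_cast e0
    rw [Complex.ofReal_div, sub_mul, Subgroup.smul_def, e1, sub_mul, mul_right_comm (_ / _),
      div_mul_cancel₀ _ g3]
    push_cast
    linear_combination (Complex.I - r) * this
  have g5 := congrArg norm g4
  rw [norm_mul, norm_mul, Complex.norm_real, Real.norm_eq_abs] at g5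
  have g6 : ‖Complex.I - r‖ ≤ R + 1 := (norm_sub_le _ _).trans (by simp [add_comm, lim_bd hR hr])
  rw [Subgroup.smul_def, e3, mul_one_div, le_div_iff₀ e4, ← mul_div_assoc, le_div_iff₀ L0]
  rw [Subgroup.smul_def] at g5
  nlinarith [mul_le_mul_of_nonneg_left h1 (mul_nonneg (norm_nonneg (((γ : SL(2, ℝ)) • I : ℍ) -
    (((a * r + b) / (c * r + d) : ℝ) : ℂ))) n0.le)]

theorem chord_mem {Λ : Set ℝ} {p q : ℝ} (hp : p ∈ Λ) (hq : q ∈ Λ) (z : ℍ)
    (h : z.im ^ 2 = (z.re - p) * (q - z.re)) : z ∈ hull Λ := fun A B C H => by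
  have e : ‖(z : ℂ)‖ ^ 2 = z.re ^ 2 + z.im ^ 2 := by
    rw [Complex.sq_norm]; simp [Complex.normSq_apply, sq]
  have h0 := h ▸ pow_pos z.im_pos 2
  have e2 : (A * ‖(z : ℂ)‖ ^ 2 + B * z.re + C) * (q - p) = (q - z.re) * (A * p ^ 2 + B * p + C)
    + (z.re - p) * (A * q ^ 2 + B * q + C) := by rw [e, h]; ring
  rcases mul_pos_iff.1 h0 with ⟨a, b⟩ | ⟨a, b⟩
  · exact nonneg_of_mul_nonneg_left (e2 ▸ add_nonneg (mul_nonneg b.le (H p hp))
      (mul_nonneg a.le (H q hq))) (by linarith)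
  · exact nonneg_of_mul_nonpos_left (e2 ▸ add_nonpos (mul_nonpos_of_nonpos_of_nonneg b.le (H p hp))
      (mul_nonpos_of_nonpos_of_nonneg a.le (H q hq))) (by linarith)

theorem conical (h : Schottky Γ) (R' : ℝ) : ∃ D, ∀ w : ℍ, w.re ∈ limitSet Γ → w.im ≤ R' →
    ∃ g : Γ, dist (g • w) I ≤ D := by
  obtain ⟨R, hR⟩ := h.bdd.exists_norm_le
  obtain ⟨p, hp, q, hq, hpq⟩ := h.two
  obtain ⟨K, hK, hc⟩ := h.cocompact
  obtain ⟨D, hD⟩ := hK.isBounded.subset_closedBall I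
  have L0 : 0 < |p - q| := abs_pos.2 (sub_ne_zero.2 hpq)
  refine ⟨max (D + 2) ((R + R' + 1) / √(|p - q| / 4)), fun w h1 h2 => ?_⟩
  have y0 := w.im_pos
  rcases le_total w.im (|p - q| / 4) with c | c
  · obtain ⟨r, hr, g⟩ : ∃ r ∈ limitSet Γ, 2 * w.im ≤ |r - w.re| := by
      have := abs_sub_le p w.re q
      rcases le_total |p - w.re| |w.re - q| with g | g
      · exact ⟨q, hq, by rw [abs_sub_comm]; linarith⟩
      · exact ⟨p, hp, by linarith⟩
    obtain ⟨e, e1, e2⟩ : ∃ e, e * (r - w.re) = w.im ^ 2 ∧ |e| ≤ w.im / 2 := by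
      have r0 : 0 < |r - w.re| := by linarith
      refine ⟨w.im ^ 2 / (r - w.re), div_mul_cancel₀ _ (abs_pos.1 r0), ?_⟩
      rw [abs_div, div_le_iff₀ r0, abs_of_nonneg (sq_nonneg _)]
      nlinarith
    have e3 := sq_le_sq' (abs_le.1 e2).1 (abs_le.1 e2).2
    have e4 : w.im / 2 ≤ √(w.im ^ 2 - e ^ 2) := le_sqrt_of_sq_le (by nlinarith)
    have e5 : √(w.im ^ 2 - e ^ 2) ≤ w.im := sqrt_le_iff.2 ⟨y0.le, by nlinarith⟩
    obtain ⟨z, z1, z2⟩ : ∃ z : ℍ, z.re = w.re + e ∧ z.im = √(w.im ^ 2 - e ^ 2) :=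
      ⟨⟨⟨_, _⟩, lt_of_lt_of_le (half_pos y0) e4⟩, rfl, rfl⟩
    obtain ⟨g, hg⟩ := hc z (chord_mem h1 hr z (by
      rw [z1, z2, sq_sqrt (by nlinarith), ← e1]; ring))
    refine ⟨g, le_max_of_le_left ((dist_triangle _ (g • z) _).trans ?_)⟩
    have a1 : dist w z ≤ 2 := by
      refine (dist_le_dist_coe_div_sqrt _ _).trans ((div_le_iff₀ (sqrt_pos.2
        (mul_pos y0 z.im_pos))).2 ?_)
      have : w.im / 2 ≤ √(w.im * z.im) := le_sqrt_of_sq_le (by rw [z2]; nlinarith)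
      rw [Complex.dist_eq]
      refine (Complex.norm_le_abs_re_add_abs_im _).trans ?_
      simp only [Complex.sub_re, Complex.sub_im, coe_re, coe_im, z1, z2] at this ⊢
      rw [sub_add_cancel_left, abs_neg, abs_of_nonneg (sub_nonneg.2 e5)]
      linarith
    rw [Subgroup.smul_def, Subgroup.smul_def, dist_smul]
    linarith [mem_closedBall.1 (hD hg), Subgroup.smul_def g z ▸ mem_closedBall.1 (hD hg)]
  · refine ⟨1, le_max_of_le_right ?_⟩
    rw [one_smul]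
    refine (dist_le_dist_coe_div_sqrt _ _).trans (div_le_div₀ ?_ ?_ (by positivity)
      (sqrt_le_sqrt (by simpa using c)))
    · linarith [(abs_nonneg _).trans (lim_bd hR hp)]
    · rw [Complex.dist_eq]
      refine (norm_sub_le _ _).trans (add_le_add ((Complex.norm_le_abs_re_add_abs_im _).trans
        (add_le_add (lim_bd hR h1) ((abs_of_pos y0).trans_le h2))) (by simp))

theorem ball_count (Γ : Subgroup SL(2, ℝ)) [ProperlyDiscontinuousSMul Γ ℍ] (D : ℝ) :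
    ∃ n : ℕ, ∀ (w : ℍ) (F : Finset Γ), (∀ γ ∈ F, dist (γ • I : ℍ) w ≤ D) → F.card ≤ n := by
  have fin := ProperlyDiscontinuousSMul.finite_disjoint_inter_image (Γ := Γ)
    (isCompact_singleton (x := I)) (isCompact_closedBall I (D + D))
  refine ⟨fin.toFinset.card, fun w F hF => ?_⟩
  rcases F.eq_empty_or_nonempty with rfl | ⟨g, hg⟩
  · simp
  refine Finset.card_le_card_of_injOn (fun γ => g⁻¹ * γ) (fun γ hγ => ?_)
    (mul_right_injective _).injOn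
  rw [Finite.coe_toFinset]
  refine ⟨_, ⟨I, rfl, rfl⟩, mem_closedBall.2 ?_⟩
  rw [← dist_smul (g : SL(2, ℝ)), ← Subgroup.smul_def, ← mul_smul, mul_inv_cancel_left]
  exact (dist_triangle_right _ _ w).trans (add_le_add (hF γ hγ) (hF g hg))

theorem summable_of_dim (h : Schottky Γ) (hd : dimH (limitSet Γ) < 1 / 2) :
    Summable fun k : Γ => √((k : SL(2, ℝ)) • I).im := by
  classical
  have := h.discrete
  obtain ⟨R, hR⟩ := h.bdd.exists_norm_le
  obtain ⟨C, C0, hC⟩ := shadow h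
  choose sh s1 s2 using hC
  obtain ⟨D, hD⟩ := conical h (2 * R + 1)
  have R0 := (abs_nonneg _).trans (lim_bd hR (s1 1))
  obtain ⟨J, W, τ, t0, t1, t2, t3⟩ := small_cover (Λ := limitSet Γ) (isCompact_of_isClosed_isBounded
    (isClosed_closure.preimage Complex.continuous_ofReal) (isBounded_iff_forall_norm_le.2
    ⟨R, fun r hr => lim_bd hR hr⟩)) hd (by positivity : 0 < 1 / 2 / √(2 * exp D))
  obtain ⟨t, ht⟩ : ∃ t : ℕ → ℝ, ∀ j, t j = 2 * exp D * τ j := ⟨_, fun _ => rfl⟩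
  have u0 : ∀ j, 0 < t j := fun j => by rw [ht]; have := t0 j; positivity
  have u1 : ∑ j ∈ J, √(t j) ≤ 1 / 2 := by
    simp only [ht, sqrt_mul (by positivity : 0 ≤ 2 * exp D), ← Finset.mul_sum]
    rwa [le_div_iff₀' (by positivity)] at t3
  have u2 : ∀ j ∈ J, t j ≤ 1 / 2 := fun j hj => by
    have := (Finset.single_le_sum (f := fun j => √(t j)) (fun _ _ => sqrt_nonneg _) hj).trans u1
    nlinarith [sq_sqrt (u0 j).le, sqrt_nonneg (t j)]
  obtain ⟨m, hm, u3⟩ := J.exists_min_image t ((t1 _ (s1 1)).imp fun _ h => h.1)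
  obtain ⟨n, hn⟩ := ball_count Γ ((C + 2) / √(t m))
  refine summable_of_sum_le (c := 2 * n * √(2 * R + 1)) (fun _ => sqrt_nonneg _) fun F => ?_
  obtain ⟨η, η0, hη⟩ : ∃ η > 0, ∀ γ ∈ F, η < (γ • I : ℍ).im := by
    rcases F.eq_empty_or_nonempty with rfl | hF
    · exact ⟨1, one_pos, by simp⟩
    · obtain ⟨g, -, hg⟩ := F.exists_min_image (fun γ => (γ • I : ℍ).im) hF
      exact ⟨_, half_pos (im_pos _), fun γ hγ => (half_lt_self (im_pos _)).trans_le (hg γ hγ)⟩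
  have key : ∀ (k : ℕ) (r ρ : ℝ), r ∈ limitSet Γ → 0 < ρ → ρ ≤ 2 * R + 1 → ρ ≤ η * 2 ^ k →
      ∑ γ ∈ F, (if |sh γ - r| ≤ ρ ∧ (γ • I : ℍ).im ≤ ρ then √(γ • I : ℍ).im else 0)
        ≤ 2 * n * √ρ := by
    intro k
    induction k with
    | zero =>
      intro r ρ _ _ _ h
      rw [Finset.sum_eq_zero fun γ hγ => if_neg fun c => by linarith [hη γ hγ, c.2]]
      positivity
    | succ k ih =>
      intro r ρ hr ρ0 ρ1 ρ2
      obtain ⟨w, w1, w2⟩ : ∃ w : ℍ, w.re = r ∧ w.im = ρ := ⟨⟨⟨r, ρ⟩, ρ0⟩, rfl, rfl⟩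
      obtain ⟨g, hg⟩ := hD w (w1 ▸ hr) (w2 ▸ ρ1)
      obtain ⟨a, ha⟩ : ∃ a, a = (g : SL(2, ℝ)) 0 0 := ⟨_, rfl⟩
      obtain ⟨b, hb⟩ : ∃ a, a = (g : SL(2, ℝ)) 0 1 := ⟨_, rfl⟩
      obtain ⟨c, hc⟩ : ∃ a, a = (g : SL(2, ℝ)) 1 0 := ⟨_, rfl⟩
      obtain ⟨d, hd⟩ : ∃ a, a = (g : SL(2, ℝ)) 1 1 := ⟨_, rfl⟩
      have e0 := det2 (g : SL(2, ℝ))
      have e1 := fun x => lim_smul hR g (r := x)
      have e2 := im_le_im_mul_exp_dist I (g • w)
      rw [Subgroup.smul_def, im_eq, I_im, div_mul_eq_mul_div, le_div_iff₀ (QQ_pos _ w.im_pos),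
        one_mul, ← Subgroup.smul_def, _root_.dist_comm, w1, w2, QQ] at e2
      replace e2 := e2.trans (mul_le_mul_of_nonneg_left (exp_le_exp.2 hg) ρ0.le)
      simp only [← ha, ← hb, ← hc, ← hd] at e0 e1 e2
      have e3 : ∀ x, |x - r| ≤ ρ → (c * x + d) ^ 2 ≤ 2 * exp D * ρ := fun x hx => by
        have := mul_le_mul_of_nonneg_left (sq_le_sq' (abs_le.1 hx).1 (abs_le.1 hx).2) (sq_nonneg c)
        nlinarith [sq_nonneg (c * r + d - c * (x - r))]
      have e4 : ∀ j, ∃ x ∈ limitSet Γ, ∀ y ∈ limitSet Γ, |y - r| ≤ ρ → (a * y + b) / (c * y + d) ∈ W j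
          → |y - x| ≤ t j * ρ := fun j => by
        by_cases hx : ∃ x ∈ limitSet Γ, |x - r| ≤ ρ ∧ (a * x + b) / (c * x + d) ∈ W j
        · obtain ⟨x, x1, x2, x3⟩ := hx
          refine ⟨x, x1, fun y y1 y2 y3 => ?_⟩
          have a1 := (e1 x x1).1
          have a2 := (e1 y y1).1
          have : y - x = ((a * y + b) / (c * y + d) - (a * x + b) / (c * x + d))
              * ((c * y + d) * (c * x + d)) := by
            rw [div_sub_div _ _ a2 a1, div_mul_cancel₀ _ (mul_ne_zero a2 a1)]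
            linear_combination (x - y) * e0
          rw [this, abs_mul, ht, mul_comm _ (τ j), mul_assoc]
          refine mul_le_mul (t2 j _ y3 _ x3) (abs_le.2 ⟨?_, ?_⟩) (abs_nonneg _) (t0 j).le <;>
            nlinarith [e3 x x2, e3 y y2, sq_nonneg (c * y + d - (c * x + d)),
              sq_nonneg (c * y + d + (c * x + d))]
        · exact ⟨r, hr, fun y y1 y2 y3 => absurd ⟨y, y1, y2, y3⟩ hx⟩
      choose x x1 x2 using e4
      refine (Finset.sum_le_sum (g := fun γ => (if dist (γ • I : ℍ) w ≤ (C + 2) / √(t m) then √ρ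
        else 0) + ∑ j ∈ J, if |sh γ - x j| ≤ t j * ρ ∧ (γ • I : ℍ).im ≤ t j * ρ then
          √(γ • I : ℍ).im else 0) fun γ _ => ?_).trans ?_
      · have n1 : ∀ j ∈ J, 0 ≤ if |sh γ - x j| ≤ t j * ρ ∧ (γ • I : ℍ).im ≤ t j * ρ then
          √(γ • I : ℍ).im else 0 := fun _ _ => by positivity
        by_cases c1 : |sh γ - r| ≤ ρ ∧ (γ • I : ℍ).im ≤ ρ
        swap
        · rw [if_neg c1]
          exact add_nonneg (by positivity) (Finset.sum_nonneg n1)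
        rw [if_pos c1]
        rcases le_total (γ • I : ℍ).im (t m * ρ) with c2 | c2
        · obtain ⟨j, hj, a1⟩ := t1 _ (e1 _ (s1 γ)).2
          refine le_add_of_nonneg_of_le (by positivity) (le_trans (le_of_eq (if_pos ⟨x2 j _ (s1 γ)
            c1.1 a1, c2.trans (mul_le_mul_of_nonneg_right (u3 j hj) ρ0.le)⟩).symm)
            (Finset.single_le_sum n1 hj))
        · refine le_add_of_le_of_nonneg ((sqrt_le_sqrt c1.2).trans_eq (if_pos ?_).symm)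
            (Finset.sum_nonneg n1)
          have a1 : ‖(w : ℂ) - sh γ‖ ≤ ρ + ρ := (Complex.norm_le_abs_re_add_abs_im _).trans
            (add_le_add (by simpa [w1, abs_sub_comm] using c1.1) (by simp [w2, abs_of_pos ρ0]))
          have a2 := u0 m
          rw [← mul_div_mul_right _ _ ρ0.ne']
          refine (dist_le_dist_coe_div_sqrt _ _).trans (div_le_div₀ (by positivity) ?_
            (by positivity) (le_sqrt_of_sq_le ?_))
          · refine (dist_triangle_right _ _ (sh γ : ℂ)).trans ?_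
            rw [Complex.dist_eq, Complex.dist_eq]
            nlinarith [s2 γ, c1.2]
          · rw [mul_pow, sq_sqrt a2.le, w2]
            nlinarith
      · rw [Finset.sum_add_distrib, Finset.sum_comm, ← Finset.sum_filter, Finset.sum_const,
          nsmul_eq_mul]
        have a1 : ((F.filter fun γ => dist (γ • I : ℍ) w ≤ (C + 2) / √(t m)).card : ℝ) ≤ n :=
          Nat.cast_le.2 (hn w _ fun γ hγ => (Finset.mem_filter.1 hγ).2)
        have a2 := Finset.sum_le_sum fun j hj => ih (x j) (t j * ρ) (x1 j) (mul_pos (u0 j) ρ0)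
          (by nlinarith [u2 j hj]) (by rw [pow_succ] at ρ2; nlinarith [u2 j hj])
        simp only [sqrt_mul' _ ρ0.le, ← Finset.mul_sum, ← Finset.sum_mul] at a2
        have a3 := mul_le_mul_of_nonneg_left (mul_le_mul_of_nonneg_right u1 (sqrt_nonneg ρ))
          (by positivity : (0 : ℝ) ≤ 2 * n)
        linarith [mul_le_mul_of_nonneg_right a1 (sqrt_nonneg ρ)]
  obtain ⟨k, hk⟩ := pow_unbounded_of_one_lt ((2 * R + 1) / η) one_lt_two
  refine le_trans (le_of_eq (Finset.sum_congr rfl fun γ _ => (if_pos ⟨?_, ?_⟩).symm))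
    (key k (sh 1) _ (s1 1) (by positivity) le_rfl ((div_le_iff₀' η0).1 hk.le))
  · linarith [abs_sub (sh γ) (sh 1), lim_bd hR (s1 γ), lim_bd hR (s1 1)]
  · linarith [hR _ ⟨γ, rfl⟩, Complex.im_le_norm ((γ • I : ℍ) : ℂ), coe_im (γ • I : ℍ)]

end Pool.Agent.Lib.MP_e1e19a_an
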