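import Mathlib

/-!
Simultaneous approximation: the theorems of Dirichlet and Kronecker, and a uniform version.
-/

namespace Pool.Agent.Lib.MP_e1e19a_an

open Finset Filter Topology

variable {ι : Type*}

theorem dirichlet (S : Finset ι) (ω : ι → ℝ) {η : ℝ} (hη : 0 < η) (N : ℕ) :
    ∃ q : ℕ, N ≤ q ∧ ∀ i ∈ S, ∃ n : ℤ, |q * ω i - n| ≤ η := by
  obtain ⟨q, h1, h2⟩ := (((mapClusterPt_zero_atTop_nsmul
    (fun i : S => ((ω i : ℝ) : AddCircle (1 : ℝ)))).frequently (Metric.closedBall_mem_nhds 0 hη)).and_eventually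
    (eventually_ge_atTop N)).exists
  refine ⟨q, h2, fun i hi => ⟨round (q * ω i), ?_⟩⟩
  have := (pi_norm_le_iff_of_nonneg hη.le).1 (mem_closedBall_zero_iff.1 h1) ⟨i, hi⟩
  rwa [Pi.smul_apply, ← AddCircle.coe_nsmul, UnitAddCircle.norm_eq, nsmul_eq_mul] at this

theorem kronecker (S : Finset ι) : ∀ (ω : ι → ℝ), (∀ m : ι → ℤ, ∑ i ∈ S, m i * ω i = 0 →
    ∀ i ∈ S, m i = 0) → ∀ (ψ : ι → ℝ) (η : ℝ), 0 < η →
    ∃ t : ℝ, ∀ i ∈ S, ∃ n : ℤ, |ψ i + t * ω i - n| ≤ η := by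
  classical
  induction S using Finset.induction_on with
  | empty => exact fun _ _ _ _ _ => ⟨0, by simp⟩
  | insert j S hj ih =>
    intro ω h ψ η hη
    have h0 : ω j ≠ 0 := fun e => by
      have := h (fun i => if i = j then 1 else 0) (by simp [e]) j (mem_insert_self _ _)
      simp at this
    obtain ⟨q, q1, q2⟩ := dirichlet S (fun i => ω i / ω j) (half_pos hη) 1
    choose! n hn using q2
    obtain ⟨s, hs⟩ := ih (fun i => q * (ω i / ω j) - n i) (fun m hm i hi => by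
      have := h (fun i => if i = j then - ∑ i ∈ S, m i * n i else q * m i) (by
        rw [sum_insert hj, if_pos rfl, ← mul_zero (ω j), ← hm]
        push_cast
        rw [neg_mul, sum_mul, mul_sum, ← sum_neg_distrib, ← sum_add_distrib]
        exact sum_congr rfl fun i hi => by
          rw [if_neg (ne_of_mem_of_not_mem hi hj)]; field_simp; ring) i (mem_insert_of_mem hi)
      rw [if_neg (ne_of_mem_of_not_mem hi hj)] at this
      exact (mul_eq_zero.1 this).resolve_left (by omega)) (fun i => ψ i - ψ j * (ω i / ω j)) _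
      (half_pos hη)
    refine ⟨(round s * q - ψ j) / ω j, fun i hi => ?_⟩
    rcases mem_insert.1 hi with rfl | hi
    · refine ⟨round s * q, ?_⟩
      rw [div_mul_cancel₀ _ h0]
      simpa using hη.le
    · obtain ⟨k, hk⟩ := hs i hi
      refine ⟨k + round s * n i, ?_⟩
      have e : ψ i + (round s * q - ψ j) / ω j * ω i - ((k + round s * n i : ℤ) : ℝ)
          = (ψ i - ψ j * (ω i / ω j) + s * (q * (ω i / ω j) - n i) - k)
            - (s - round s) * (q * (ω i / ω j) - n i) := by push_cast; ring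
      rw [e]
      refine (abs_sub _ _).trans ?_
      rw [abs_mul]
      have := mul_le_mul ((abs_sub_round s).trans (by norm_num : (1 : ℝ) / 2 ≤ 1)) (hn i hi)
        (abs_nonneg _) zero_le_one
      linarith

theorem kron_unif (S : Finset ι) (ω : ι → ℝ) (h : ∀ m : ι → ℤ, ∑ i ∈ S, m i * ω i = 0 →
    ∀ i ∈ S, m i = 0) {η : ℝ} (hη : 0 < η) : ∃ T : ℝ, ∀ ψ : ι → ℝ,
    ∃ t : ℝ, |t| ≤ T ∧ ∀ i ∈ S, ∃ n : ℤ, |ψ i + t * ω i - n| ≤ η := by
  have hK : IsCompact (Set.pi Set.univ fun _ : ι => Set.Icc (0 : ℝ) 1) :=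
    isCompact_univ_pi fun _ => isCompact_Icc
  obtain ⟨N, hN⟩ := hK.elim_directed_cover (fun N : ℕ => ⋃ t : ℝ, ⋃ _ : |t| ≤ N, ⋂ i ∈ S, ⋃ n : ℤ,
      {ψ : ι → ℝ | |ψ i + t * ω i - n| < η})
    (fun N => isOpen_iUnion fun t => isOpen_iUnion fun _ => isOpen_biInter_finset fun i _ =>
      isOpen_iUnion fun n => isOpen_lt (by fun_prop) continuous_const)
    (fun ψ _ => by
      obtain ⟨t, ht⟩ := kronecker S ω h ψ _ (half_pos hη)
      obtain ⟨N, hN⟩ := exists_nat_ge |t|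
      simp only [Set.mem_iUnion, Set.mem_iInter, Set.mem_setOf_eq]
      exact ⟨N, t, hN, fun i hi => (ht i hi).imp fun n hn => by linarith⟩)
    (Monotone.directed_le fun a b hab => Set.iUnion_mono fun t => Set.iUnion_mono' fun ht =>
      ⟨ht.trans (Nat.cast_le.2 hab), le_rfl⟩)
  refine ⟨N, fun ψ => ?_⟩
  have := hN (show (fun i => Int.fract (ψ i)) ∈ _ from fun i _ =>
    ⟨Int.fract_nonneg _, (Int.fract_lt_one _).le⟩)
  simp only [Set.mem_iUnion, Set.mem_iInter, Set.mem_setOf_eq] at this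
  obtain ⟨t, h1, h2⟩ := this
  refine ⟨t, h1, fun i hi => ?_⟩
  obtain ⟨n, hn⟩ := h2 i hi
  refine ⟨n + ⌊ψ i⌋, le_trans (le_of_eq ?_) hn.le⟩
  rw [Int.fract]
  push_cast
  ring_nf

end Pool.Agent.Lib.MP_e1e19a_an
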