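import Pool.Agent.Lib.MP_e1e19a_an.H26Wave

/-!
A sign pattern of the plane wave model at one point is seen `c λ ^ 2` times near that point.
-/

namespace Pool.Agent.Lib.MP_e1e19a_an

open Finset Real Filter Topology UpperHalfPlane
open scoped MatrixGroups

variable {ι : Type*}

theorem emb : IsOpenEmbedding fun z : ℍ => (z.re, z.im) :=
  Complex.equivRealProdCLM.toHomeomorph.isOpenEmbedding.comp isOpenEmbedding_coe

/-- `V` contains `c λ ^ 2` disjoint open sets with a positive inner point and negative boundary -/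
def Many (M : ι → SL(2, ℝ)) (V : Set ℍ) : Prop :=
  ∃ c > 0, ∃ l₀, ∀ l ≥ l₀, ∀ ϑ : ℝ, ∃ (N : ℕ) (U : Fin N × Fin N → Set ℍ) (p : Fin N × Fin N → ℍ),
    c * l ^ 2 ≤ (N : ℝ) ^ 2 ∧ (∀ m, IsOpen (U m) ∧ closure (U m) ⊆ V ∧ p m ∈ U m ∧
      0 < ∑' k, √(M k • p m).im * cos (l * log (M k • p m).im + ϑ) ∧
      ∀ ζ ∈ closure (U m), ζ ∉ U m → ∑' k, √(M k • ζ).im * cos (l * log (M k • ζ).im + ϑ) < 0) ∧
    ∀ m m' ζ, ζ ∈ U m → ζ ∈ U m' → m = m'

theorem local_many (M : ι → SL(2, ℝ)) (o : ι) (ho : M o = 1) (hc : ∀ k, k ≠ o → M k 1 0 ≠ 0)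
    (hp : ∀ k l, M k 1 0 * M l 1 1 = M l 1 0 * M k 1 1 → k = l)
    (hs : Summable fun k => √(M k • I).im) (z : ℍ) (θ : ι → ℝ) (T u₀ κ : ℝ) (h1 : 0 < u₀)
    (h2 : u₀ < T) (hκ : 0 < κ)
    (hin : κ ≤ ∑' k, √(M k • z).im * cos (al (M k) (z.re, z.im) * u₀ + be (M k) (z.re, z.im) * 0 + θ k))
    (hbd : ∀ u v, 0 ≤ u → u ≤ T → |v| ≤ π → (u = 0 ∨ u = T ∨ |v| = π) →
      ∑' k, √(M k • z).im * cos (al (M k) (z.re, z.im) * u + be (M k) (z.re, z.im) * v + θ k) ≤ -κ)
    (V : Set ℍ) (hV : V ∈ 𝓝 z) : Many M V := by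
  obtain ⟨S, hS⟩ := exists_tail (summ M hs z) (by positivity : 0 < κ / 8)
  obtain ⟨A, hA⟩ : ∃ A, A = ∑' k, √(M k • z).im := ⟨_, rfl⟩
  have A0 : 0 ≤ A := hA ▸ tsum_nonneg fun _ => sqrt_nonneg _
  obtain ⟨η, η0, hη⟩ : ∃ η : ℝ, 0 < η ∧ η * A ≤ κ / 8 := ⟨κ / 8 / (A + 1), by positivity, by
    rw [div_mul_eq_mul_div, div_le_iff₀ (by positivity)]; nlinarith⟩
  have y0 := z.im_pos
  have e1 : ∀ᶠ w in 𝓝 (z.re, z.im), ∃ ζ : ℍ, (ζ ∈ V ∧ exp (dist ζ z) - 1 < η) ∧ (ζ.re, ζ.im) = w :=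
    emb.isOpenMap.image_mem_nhds (Filter.inter_mem hV ((by fun_prop : ContinuousAt
      (fun ζ : ℍ => exp (dist ζ z) - 1) z).eventually (gt_mem_nhds (by simpa using η0))))
  have e2 : ∀ᶠ w in 𝓝 (z.re, z.im), ∀ k ∈ S, |al (M k) w - al (M k) (z.re, z.im)| * T
      + |be (M k) w - be (M k) (z.re, z.im)| * π < η := (eventually_all_finset S).2 fun k _ =>
    (((((cont_al (M k) y0).sub continuousAt_const).abs.mul continuousAt_const).add
      (((cont_be (M k) y0).sub continuousAt_const).abs.mul continuousAt_const))).eventually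
      (gt_mem_nhds (by simpa using η0))
  obtain ⟨x, g1, g2, g3⟩ := ((mem_closure_iff_frequently.1 (generic M o ho hc hp S y0 z.re)).and_eventually
    ((by fun_prop : ContinuousAt (fun x : ℝ => (x, z.im)) z.re).eventually
      (e1.eventually_nhds.and e2))).exists
  obtain ⟨T₁, hT⟩ := kron_unif S (fun k => be (M k) (x, z.im) / (2 * π)) (fun m hm => g1 m (by
    simp only [← mul_div_assoc, ← sum_div] at hm
    exact (div_eq_zero_iff.1 hm).resolve_right two_pi_pos.ne')) (by positivity : 0 < η / (2 * π))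
  have T0 : 0 ≤ T₁ := (abs_nonneg _).trans (hT 0).choose_spec.1
  obtain ⟨R, hR⟩ : ∃ R, R = T + T₁ + π := ⟨_, rfl⟩
  have pi0 := pi_pos
  have R0 : 0 < R := by linarith
  obtain ⟨ρ, ρ0, hρ⟩ := Metric.eventually_nhds_iff.1 ((((eventually_all_finset S).2 fun k _ =>
    ph_strict (M k) (w := (x, z.im)) y0 (by positivity : 0 < η / (z.im * R)))).and
    (continuous_fst.continuousAt.eventually g2))
  refine ⟨(ρ / (8 * R * z.im)) ^ 2, by positivity, 8 * R * z.im / ρ, fun l hl ϑ => ?_⟩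
  have l0 : 0 < l := lt_of_lt_of_le (by positivity) hl
  obtain ⟨h, h0, hh⟩ : ∃ h : ℝ, 0 < h ∧ z.im = l * h := ⟨z.im / l, by positivity, by field_simp⟩
  obtain ⟨N, N1, N2⟩ : ∃ N : ℕ, N * (4 * R * h) ≤ ρ ∧ ρ / (8 * R * z.im) * l ≤ N := by
    refine ⟨⌊ρ / (4 * R * h)⌋₊, (le_div_iff₀ (by positivity)).1 (Nat.floor_le (by positivity)), ?_⟩
    have a1 := Nat.lt_floor_add_one (ρ / (4 * R * h))
    have a2 : ρ / (4 * R * h) = 2 * (ρ / (8 * R * z.im) * l) := by rw [hh]; field_simp; ring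
    have a3 : 1 ≤ ρ / (8 * R * z.im) * l := by
      rw [div_mul_eq_mul_div, le_div_iff₀ (by positivity)]
      rw [ge_iff_le, div_le_iff₀ ρ0] at hl
      linarith
    linarith
  choose t t1 t2 using fun m : Fin N × Fin N => hT fun k => (l * ph (M k)
    (x + h * (2 * R * m.1), z.im + h * (2 * R * m.2)) + ϑ - θ k) / (2 * π)
  have nb : ∀ (i : Fin N) (s : ℝ), |s| ≤ R → |h * (2 * R * i + s)| < ρ := fun i s hs => by
    have a1 : ((i : ℕ) : ℝ) + 1 ≤ N := by exact_mod_cast i.2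
    have a2 : (0 : ℝ) ≤ (i : ℕ) := Nat.cast_nonneg _
    have a3 := mul_pos h0 R0
    rw [abs_mul, abs_of_pos h0]
    refine (mul_le_mul_of_nonneg_left ((abs_add_le _ _).trans (add_le_add
      (abs_of_nonneg (by positivity)).le hs)) h0.le).trans_lt (by nlinarith)
  have key : ∀ (m : Fin N × Fin N) (u v : ℝ), 0 ≤ u → u ≤ T → |v| ≤ π → ∃ ζ ∈ V,
      ζ.re = x + h * (2 * R * m.1 + u) ∧ ζ.im = z.im + h * (2 * R * m.2 + (t m + v)) ∧
      |∑' k, √(M k • ζ).im * cos (l * log (M k • ζ).im + ϑ) - ∑' k, √(M k • z).im *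
        cos (al (M k) (z.re, z.im) * u + be (M k) (z.re, z.im) * v + θ k)| < κ := by
    intro m u v u0 u1 v1
    have b1 : |u| ≤ R := by rw [abs_of_nonneg u0]; linarith
    have b2 : |t m + v| ≤ R := (abs_add_le _ _).trans (by linarith [t1 m])
    obtain ⟨c1, ζ, ⟨c2, c3⟩, c4⟩ := hρ (y := ((x + h * (2 * R * m.1 + u),
        z.im + h * (2 * R * m.2 + (t m + v))), (x + h * (2 * R * m.1), z.im + h * (2 * R * m.2)))) (by
      simp only [Prod.dist_eq, Real.dist_eq, add_sub_cancel_left, max_lt_iff]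
      exact ⟨⟨nb _ _ b1, nb _ _ b2⟩, by simpa using nb m.1 0 (by simpa using R0.le),
        by simpa using nb m.2 0 (by simpa using R0.le)⟩)
    refine ⟨ζ, c2, congrArg Prod.fst c4, congrArg Prod.snd c4, (tsum_close _ _ (summ M hs z)
      (fun _ => sqrt_nonneg _) (fun _ => sqrt_nonneg _) (ε := η) (η := 3 * η) (by positivity)
      (fun k => (amp_close _ _ _).trans (mul_le_mul_of_nonneg_right c3.le (sqrt_nonneg _))) S
      fun k hk => ?_).trans_lt (by rw [← hA] at hS ⊢; linarith)⟩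
    obtain ⟨n, hn⟩ := t2 m k hk
    refine ⟨n, ?_⟩
    rw [le_div_iff₀ two_pi_pos, ← abs_of_pos two_pi_pos, ← abs_mul, abs_of_pos two_pi_pos] at hn
    have d1 := c1 k hk
    have d2 : ‖((x + h * (2 * R * m.1 + u), z.im + h * (2 * R * m.2 + (t m + v))) : ℝ × ℝ)
        - (x + h * (2 * R * m.1), z.im + h * (2 * R * m.2))‖ ≤ h * R := by
      simp only [Prod.norm_def, max_le_iff, Prod.fst_sub, Prod.snd_sub, add_sub_add_left_eq_sub,
        ← mul_sub, add_sub_cancel_left, Real.norm_eq_abs, abs_mul, abs_of_pos h0]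
      exact ⟨by gcongr, by gcongr⟩
    have d3 := mul_le_mul_of_nonneg_left (d1.trans (mul_le_mul_of_nonneg_left d2 (by positivity)))
      l0.le
    rw [show l * (η / (z.im * R) * (h * R)) = η by rw [hh]; field_simp, ← abs_of_pos l0,
      ← abs_mul] at d3
    have d4 := g3 k hk
    have d5 : |(al (M k) (x, z.im) - al (M k) (z.re, z.im)) * u
        + (be (M k) (x, z.im) - be (M k) (z.re, z.im)) * v| ≤ η := by
      refine (abs_add_le _ _).trans (le_trans ?_ d4.le)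
      rw [abs_mul, abs_mul, abs_of_nonneg u0]
      gcongr
    rw [log_im, c4]
    refine le_trans (le_of_eq (congrArg _ ?_)) ((abs_add_three _ _ _).trans
      ((add_le_add_three d3 hn d5).trans (le_of_eq (by ring))))
    have : l * ((al (M k) (x, z.im) * (h * u) + be (M k) (x, z.im) * (h * (t m + v))) / z.im)
      = al (M k) (x, z.im) * u + be (M k) (x, z.im) * (t m + v) := by
      rw [eq_comm, ← mul_div_assoc, eq_div_iff y0.ne']
      nth_rw 3 [hh]
      ring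
    simp only [add_sub_add_left_eq_sub, ← mul_sub, add_sub_cancel_left]
    rw [mul_sub l, this]
    field_simp
    ring
  choose p p1 p2 p3 p4 using fun m => key m u₀ 0 h1.le h2.le (by simpa using pi0.le)
  refine ⟨N, fun m => {ζ | x + h * (2 * R * m.1) < ζ.re ∧ ζ.re < x + h * (2 * R * m.1 + T) ∧
    |ζ.im - (z.im + h * (2 * R * m.2 + t m))| < h * π}, p, ?_, fun m => ?_, ?_⟩
  · rw [← mul_pow]
    exact pow_le_pow_left₀ (by positivity) N2 2
  · have cl : ∀ ζ ∈ closure {ζ : ℍ | x + h * (2 * R * m.1) < ζ.re ∧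
        ζ.re < x + h * (2 * R * m.1 + T) ∧ |ζ.im - (z.im + h * (2 * R * m.2 + t m))| < h * π},
        ∃ u v, 0 ≤ u ∧ u ≤ T ∧ |v| ≤ π ∧ ζ.re = x + h * (2 * R * m.1 + u) ∧
          ζ.im - (z.im + h * (2 * R * m.2 + t m)) = h * v := fun ζ hζ => by
      obtain ⟨a1, a2, a3⟩ := closure_minimal (t := {ζ : ℍ | x + h * (2 * R * m.1) ≤ ζ.re ∧
        ζ.re ≤ x + h * (2 * R * m.1 + T) ∧ |ζ.im - (z.im + h * (2 * R * m.2 + t m))| ≤ h * π})
        (fun ζ h => ⟨h.1.le, h.2.1.le, h.2.2.le⟩) ((isClosed_le (by fun_prop) (by fun_prop)).and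
        ((isClosed_le (by fun_prop) (by fun_prop)).and (isClosed_le (by fun_prop) (by fun_prop))))
        hζ
      refine ⟨(ζ.re - (x + h * (2 * R * m.1))) / h, (ζ.im - (z.im + h * (2 * R * m.2 + t m))) / h,
        div_nonneg (by linarith) h0.le, (div_le_iff₀ h0).2 (by linarith), ?_, by field_simp; ring,
        by field_simp⟩
      rw [abs_div, abs_of_pos h0, div_le_iff₀ h0]
      linarith
    have un : ∀ ζ ζ' : ℍ, ζ.re = ζ'.re → ζ.im = ζ'.im → ζ = ζ' := fun ζ ζ' a b =>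
      emb.injective (Prod.ext a b)
    refine ⟨(isOpen_lt (by fun_prop) (by fun_prop)).and ((isOpen_lt (by fun_prop)
      (by fun_prop)).and (isOpen_lt (by fun_prop) (by fun_prop))), fun ζ hζ => ?_,
      ⟨?_, ?_, ?_⟩, by linarith [(abs_lt.1 (p4 m)).1], fun ζ hζ hζ' => ?_⟩
    · obtain ⟨u, v, a1, a2, a3, a4, a5⟩ := cl ζ hζ
      obtain ⟨ζ', b1, b2, b3, -⟩ := key m u v a1 a2 a3
      rwa [un ζ ζ' (a4.trans b2.symm) (by linarith)]
    · rw [p2]; nlinarith
    · rw [p2]; nlinarith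
    · rw [p3]; simpa using mul_pos h0 pi0
    · obtain ⟨u, v, a1, a2, a3, a4, a5⟩ := cl ζ hζ
      obtain ⟨ζ', b1, b2, b3, b4⟩ := key m u v a1 a2 a3
      rw [un ζ ζ' (a4.trans b2.symm) (by linarith)]
      refine (sub_lt_iff_lt_add.1 (abs_lt.1 b4).2).trans_le (by
        have := hbd u v a1 a2 a3 (by
          by_contra hc
          push Not at hc
          refine hζ' ⟨?_, ?_, ?_⟩
          · rw [a4]; nlinarith [a1.lt_of_ne' hc.1]
          · rw [a4]; nlinarith [a2.lt_of_ne hc.2.1]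
          · rw [a5, abs_mul, abs_of_pos h0]
            exact mul_lt_mul_of_pos_left (a3.lt_of_ne hc.2.2) h0)
        linarith)
  · have sep : ∀ i j : Fin N, h * (2 * R * i) < h * (2 * R * j) + h * (2 * R) → i ≤ j := by
      intro i j hij
      by_contra hc
      have : ((j : ℕ) : ℝ) + 1 ≤ (i : ℕ) := by exact_mod_cast not_le.1 hc
      nlinarith [mul_pos h0 R0]
    intro m m' ζ a b
    have a3 := abs_lt.1 a.2.2
    have b3 := abs_lt.1 b.2.2
    have a4 := mul_le_mul_of_nonneg_left (abs_le.1 (t1 m)).1 h0.le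
    have a5 := mul_le_mul_of_nonneg_left (abs_le.1 (t1 m)).2 h0.le
    have b4 := mul_le_mul_of_nonneg_left (abs_le.1 (t1 m')).1 h0.le
    have b5 := mul_le_mul_of_nonneg_left (abs_le.1 (t1 m')).2 h0.le
    have c1 := mul_pos h0 (h1.trans h2)
    have c2 := mul_nonneg h0.le T0
    have c3 := mul_pos h0 pi0
    have c4 : h * R = h * T + h * T₁ + h * π := by rw [hR]; ring
    exact Prod.ext (le_antisymm (sep _ _ (by linarith [a.1, b.2.1])) (sep _ _ (by
      linarith [b.1, a.2.1]))) (le_antisymm (sep _ _ (by linarith)) (sep _ _ (by linarith)))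

end Pool.Agent.Lib.MP_e1e19a_an
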