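import Pool.Agent.Lib.MP_e1e19a_an.H26Kron

/-!
A sum of plane waves just beyond domination by one wave, with two further waves in resonance,
is negative on the boundary of a rectangle and positive at an inner point.
-/

namespace Pool.Agent.Lib.MP_e1e19a_an

open Finset Real

variable {ι : Type*}

theorem summable_cos {a : ι → ℝ} (ha : Summable a) (h0 : ∀ i, 0 ≤ a i) (ψ : ι → ℝ) :
    Summable fun i => a i * cos (ψ i) :=
  ha.of_norm_bounded fun i => by
    rw [Real.norm_eq_abs, abs_mul, abs_of_nonneg (h0 i)]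
    exact mul_le_of_le_one_right (h0 i) (abs_cos_le_one _)

theorem tsum_close {a a' : ι → ℝ} (ψ ψ' : ι → ℝ) (ha : Summable a) (h0 : ∀ i, 0 ≤ a i)
    (h0' : ∀ i, 0 ≤ a' i) {ε η : ℝ} (hη : 0 ≤ η) (h1 : ∀ i, |a' i - a i| ≤ ε * a i) (S : Finset ι)
    (h2 : ∀ i ∈ S, ∃ n : ℤ, |ψ' i - ψ i - n * (2 * π)| ≤ η) :
    |∑' i, a' i * cos (ψ' i) - ∑' i, a i * cos (ψ i)|
      ≤ (ε + η) * ∑' i, a i + 2 * (∑' i, a i - ∑ i ∈ S, a i) := by
  classical
  have ha' : Summable a' := (ha.mul_left (ε + 1)).of_nonneg_of_le h0' fun i => by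
    linarith [(abs_le.1 (h1 i)).2]
  rw [← (summable_cos ha' h0' ψ').tsum_sub (summable_cos ha h0 ψ), ← Real.norm_eq_abs]
  refine tsum_of_norm_bounded ((ha.hasSum.mul_left (ε + η)).add ((ha.hasSum.sub
    (hasSum_sum_of_ne_finset_zero (f := fun i => if i ∈ S then a i else 0) (s := S)
      fun i hi => if_neg hi)).mul_left 2)) (fun i => ?_) |>.trans (le_of_eq ?_)
  · rw [Real.norm_eq_abs, show a' i * cos (ψ' i) - a i * cos (ψ i) = (a' i - a i) * cos (ψ' i)
      + a i * (cos (ψ' i) - cos (ψ i)) by ring]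
    refine (abs_add_le _ _).trans ?_
    rw [abs_mul, abs_mul, abs_of_nonneg (h0 i)]
    have b1 := (mul_le_of_le_one_right (abs_nonneg _) (abs_cos_le_one (ψ' i))).trans (h1 i)
    have b2 := mul_nonneg (h0 i) hη
    split_ifs with c
    · obtain ⟨n, hn⟩ := h2 i c
      have := (abs_cos_sub_cos_le (ψ' i - n * (2 * π)) (ψ i)).trans ((le_of_eq (by ring_nf)).trans hn)
      rw [cos_sub_int_mul_two_pi] at this
      linarith [mul_le_mul_of_nonneg_left this (h0 i)]
    · have : |cos (ψ' i) - cos (ψ i)| ≤ 2 := (abs_sub _ _).trans (by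
        linarith [abs_cos_le_one (ψ' i), abs_cos_le_one (ψ i)])
      linarith [mul_le_mul_of_nonneg_left this (h0 i)]
  · rw [sum_congr rfl fun i hi => if_pos hi]

theorem exists_tail {a : ι → ℝ} (ha : Summable a) {τ : ℝ} (hτ : 0 < τ) :
    ∃ S : Finset ι, ∑' i, a i - ∑ i ∈ S, a i ≤ τ := by
  obtain ⟨S, hS⟩ := (ha.hasSum.eventually (lt_mem_nhds (sub_lt_self (∑' i, a i) hτ))).exists
  exact ⟨S, by linarith⟩

theorem model [DecidableEq ι] (o i j : ι) (a α β : ι → ℝ) (μ σ : ℝ) (ha : Summable a)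
    (h0 : ∀ k, 0 ≤ a k) (hμ : μ = ∑' k, a k - 2 * a o) (μ0 : 0 < μ) (ho : α o = 0) (ho' : β o = 1)
    (hβ : ∀ k, |β k| ≤ 1) (hi : i ≠ o) (hj : j ≠ o) (hij : i ≠ j) (hσ : σ = 1 ∨ σ = -1)
    (r1 : α j = σ * α i) (r2 : β j = -σ * β i) (hα : α i ≠ 0)
    (c1 : ∀ v ∈ Set.Icc (π / 3) π, 2 * μ ≤ a i * (cos (β i * v) - cos v))
    (c2 : μ ≤ min (a i) (a j) * (1 - |cos (π * β i)|)) (c3 : μ ≤ a i) :
    ∃ T u₀, 0 < u₀ ∧ u₀ < T ∧
      μ / 4 ≤ ∑' k, a k * cos (α k * u₀ + β k * 0 + if k = o then 0 else π) ∧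
      ∀ u v, 0 ≤ u → u ≤ T → |v| ≤ π → (u = 0 ∨ u = T ∨ |v| = π) →
        ∑' k, a k * cos (α k * u + β k * v + if k = o then 0 else π) ≤ -(μ / 4) := by
  have hs : HasSum (fun k => if k = o then -a k else a k) μ := by
    rw [hμ]
    refine (ha.hasSum.sub ((hasSum_ite_eq o (a o)).mul_left 2)).congr_fun fun k => ?_
    split_ifs with c
    · rw [c]; ring
    · ring
  have key : ∀ (u v X Y : ℝ) (F : Finset ι), o ∉ F → Y * cos v = X →
      (∀ k, k ≠ o → 0 ≤ Y * cos (α k * u + β k * v) - X) →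
      ∑ k ∈ F, a k * (Y * cos (α k * u + β k * v) - X) ≤
      -(Y * ∑' k, a k * cos (α k * u + β k * v + if k = o then 0 else π)) - X * μ := by
    intro u v X Y F hF e h
    refine le_trans (le_of_eq (sum_congr rfl fun k hk => ?_)) (sum_le_hasSum F (fun k _ => ?_)
      (((summable_cos ha h0 _).hasSum.mul_left Y).neg.sub (hs.mul_left X)))
    · rw [if_neg (ne_of_mem_of_not_mem hk hF), if_neg (ne_of_mem_of_not_mem hk hF), cos_add_pi]
      ring
    · split_ifs with c
      · rw [c, ho, ho', ← e]; simp; ring_nf; rfl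
      · rw [cos_add_pi]
        exact (mul_nonneg (h0 k) (h k c)).trans_eq (by ring)
  have left : ∀ v, |v| ≤ π →
      ∑' k, a k * cos (α k * 0 + β k * v + if k = o then 0 else π) ≤ -(μ / 2) := by
    intro v hv
    have m : ∀ k, 0 ≤ cos (β k * v) - cos v := fun k => by
      rw [sub_nonneg, ← cos_abs v, ← cos_abs (β k * v), abs_mul]
      exact cos_le_cos_of_nonneg_of_le_pi (by positivity) hv
        (mul_le_of_le_one_left (abs_nonneg _) (hβ k))
    have := key 0 v (cos v) 1 {i} (by simpa using hi.symm) (one_mul _) fun k _ => by simpa using m k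
    simp only [sum_singleton, one_mul, mul_zero, zero_add] at this ⊢
    rcases le_total |v| (π / 3) with c | c
    · have := cos_le_cos_of_nonneg_of_le_pi (abs_nonneg v) (by linarith [pi_pos]) c
      rw [cos_pi_div_three, cos_abs] at this
      nlinarith [mul_nonneg (h0 i) (m i)]
    · have := c1 |v| ⟨c, hv⟩
      rw [← cos_abs (β i * |v|), abs_mul, abs_abs, ← abs_mul, cos_abs, cos_abs] at this
      nlinarith [neg_one_le_cos v]
  obtain ⟨S, hS⟩ := exists_tail ha (by positivity : 0 < μ / 16)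
  have A0 : 0 < ∑' k, a k := by linarith [h0 o]
  obtain ⟨N, hN⟩ := exists_nat_gt (π / |α i|)
  obtain ⟨q, q1, q2⟩ := dirichlet S (fun k => α k / (2 * π))
    (by positivity : 0 < μ / 8 / (∑' k, a k) / (2 * π)) N
  refine ⟨q, π / |α i|, by positivity, hN.trans_le (Nat.cast_le.2 q1), ?_, fun u v h1 h2 h3 h4 => ?_⟩
  · have := key (π / |α i|) 0 (-1) (-1) {i} (by simpa using hi.symm) (by simp) fun k _ => by
      linarith [cos_le_one (α k * (π / |α i|) + β k * 0)]
    rw [sum_singleton, mul_zero, add_zero, ← cos_abs, abs_mul, abs_div, abs_abs,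
      mul_div_cancel₀ _ (abs_ne_zero.2 hα), abs_of_pos pi_pos, cos_pi] at this
    linarith
  rcases h4 with rfl | rfl | h4
  · linarith [left v h3]
  · have := tsum_close (fun k => α k * 0 + β k * v + if k = o then 0 else π)
      (fun k => α k * q + β k * v + if k = o then 0 else π) ha h0 h0 (ε := 0)
      (by positivity : 0 ≤ μ / 8 / (∑' k, a k)) (by simp) S fun k hk => by
        obtain ⟨n, hn⟩ := q2 k hk
        refine ⟨n, ?_⟩
        rw [le_div_iff₀ two_pi_pos, ← abs_of_pos two_pi_pos, ← abs_mul, abs_of_pos two_pi_pos] at hn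
        refine le_trans (le_of_eq (congrArg _ ?_)) hn
        field_simp
        ring
    rw [zero_add, div_mul_cancel₀ _ A0.ne'] at this
    linarith [left v h3, (abs_le.1 this).2]
  · have := key u v (-1) 1 {i, j} (by simp [hi.symm, hj.symm]) (by
      rw [← cos_abs, h4, cos_pi, one_mul]) fun k _ => by
      linarith [neg_one_le_cos (α k * u + β k * v)]
    have e : cos (α j * u + β j * v) = cos (α i * u - β i * v) := by
      rw [r1, r2]
      rcases hσ with rfl | rfl
      · congr 1; ring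
      · rw [← cos_neg]; congr 1; ring
    have e2 : |cos (β i * v)| = |cos (π * β i)| := by
      rw [← cos_abs, abs_mul, h4, ← cos_abs (π * β i), abs_mul, abs_of_pos pi_pos, mul_comm]
    rw [sum_pair hij, e] at this
    have b1 := mul_le_mul_of_nonneg_right (min_le_left (a i) (a j))
      (by linarith [neg_one_le_cos (α i * u + β i * v)] : 0 ≤ 1 + cos (α i * u + β i * v))
    have b2 := mul_le_mul_of_nonneg_right (min_le_right (a i) (a j))
      (by linarith [neg_one_le_cos (α i * u - β i * v)] : 0 ≤ 1 + cos (α i * u - β i * v))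
    have b3 : -|cos (π * β i)| ≤ cos (α i * u) * cos (β i * v) := by
      rw [← e2]
      refine le_trans ?_ (neg_abs_le _)
      rw [abs_mul]
      exact neg_le_neg (mul_le_of_le_one_left (abs_nonneg _) (abs_cos_le_one _))
    have b4 := mul_le_mul_of_nonneg_left b3 (le_min (h0 i) (h0 j))
    rw [cos_add, cos_sub] at *
    nlinarith

end Pool.Agent.Lib.MP_e1e19a_an
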