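import Pool.Agent.Lib.MP_e1e19a_an.H26Border
import Pool.Agent.Lib.MP_e1e19a_an.H26Defs

/-!
From sign patterns on the upper half-plane to nodal domains on the quotient.
-/

namespace Pool.Agent.Lib.MP_e1e19a_an

open Real Filter Topology UpperHalfPlane Set
open scoped MatrixGroups

theorem comp_subset {X : Type*} [TopologicalSpace X] (F : X → ℝ) (hF : Continuous F) (U : Set X)
    (hU : IsOpen U) (p : X) (hp : p ∈ U) (h1 : 0 < F p) (h2 : ∀ q ∈ closure U, q ∉ U → F q < 0) :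
    connectedComponentIn {q | F q = 0}ᶜ p ⊆ U := by
  have m := mem_connectedComponentIn (F := {q | F q = 0}ᶜ) h1.ne'
  refine isPreconnected_connectedComponentIn.subset_left_of_subset_union hU
    isClosed_closure.isOpen_compl (disjoint_compl_right.mono_left subset_closure) (fun q hq => ?_)
    ⟨p, m, hp⟩
  by_contra hc
  rw [mem_union, not_or, mem_compl_iff, not_not] at hc
  obtain ⟨w, hw, e⟩ := isPreconnected_connectedComponentIn.intermediate_value hq m hF.continuousOn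
    ⟨(h2 q hc.2 hc.1).le, h1.le⟩
  exact connectedComponentIn_subset _ _ hw e

theorem re_eis (Γ : Subgroup SL(2, ℝ)) (hs : Summable fun k : Γ => √((k : SL(2, ℝ)) • I).im)
    (C : ℂ) (l : ℝ) (z : ℍ) : (C * eis Γ (1 / 2 + l * Complex.I) z).re = ‖C‖ *
      ∑' k : Γ, √((k : SL(2, ℝ)) • z).im * cos (l * log ((k : SL(2, ℝ)) • z).im + C.arg) := by
  have e : ∀ y : ℝ, 0 < y → C * (y : ℂ) ^ (1 / 2 + l * Complex.I) =
      (‖C‖ * √y : ℝ) * Complex.exp ((l * log y + C.arg : ℝ) * Complex.I) := fun y hy => by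
    rw [Complex.cpow_def_of_ne_zero (Complex.ofReal_ne_zero.2 hy.ne'), ← Complex.ofReal_log hy.le,
      sqrt_eq_rpow, rpow_def_of_pos hy]
    nth_rw 1 [← Complex.norm_mul_exp_arg_mul_I C]
    push_cast
    rw [mul_assoc, mul_assoc, ← Complex.exp_add, ← Complex.exp_add]
    congr 2
    ring
  rw [eis, ← tsum_mul_left, ← tsum_mul_left, tsum_congr fun k => e _ (im_pos _), Complex.re_tsum]
  · exact tsum_congr fun k => by
      rw [Complex.re_ofReal_mul, Complex.exp_ofReal_mul_I_re, mul_assoc]; rfl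
  · refine ((summ _ hs z).mul_left ‖C‖).of_norm_bounded fun k => le_of_eq ?_
    rw [norm_mul, Complex.norm_exp_ofReal_mul_I, mul_one, Complex.norm_of_nonneg (by positivity)]
    rfl

theorem count_quot (Γ : Subgroup SL(2, ℝ)) [ProperlyDiscontinuousSMul Γ ℍ]
    (free : ∀ (γ : Γ) (z : ℍ), γ • z = z → γ = 1)
    (hs : Summable fun k : Γ => √((k : SL(2, ℝ)) • I).im) (z : ℍ)
    (h : ∀ V ∈ 𝓝 z, Many (fun k : Γ => (k : SL(2, ℝ))) V) (W : Set ℍ) (hW : W ∈ 𝓝 z) :
    ∃ c > (0 : ℝ), ∃ l₀ : ℝ, ∀ l ≥ l₀, ∀ C : ℂ, C ≠ 0 → ∃ 𝒟 : Finset (Set (Surf Γ)),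
      c * l ^ 2 ≤ 𝒟.card ∧
      ∀ D ∈ 𝒟, IsNodalDomain Γ (fun z => (C * eis Γ (1 / 2 + l * Complex.I) z).re) D ∧
        IsCompact (closure D) ∧ closure D ⊆ proj Γ '' W := by
  classical
  obtain ⟨V, hV, inj⟩ := ProperlyDiscontinuousSMul.exists_nhds_image_smul_eq_self Γ z
  obtain ⟨c, c0, l₀, H⟩ := h _ (inter_mem hW (inter_mem hV (Metric.closedBall_mem_nhds z one_pos)))
  refine ⟨c, c0, l₀, fun l hl C hC => ?_⟩
  obtain ⟨N, U, p, h1, h2, h3⟩ := H l hl C.arg
  obtain ⟨G, hG⟩ : ∃ G : ℍ → ℝ, ∀ z, G z = ∑' k : Γ, √((k : SL(2, ℝ)) • z).im *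
    cos (l * log ((k : SL(2, ℝ)) • z).im + C.arg) := ⟨_, fun _ => rfl⟩
  simp only [← hG] at h2
  have cG : Continuous G := funext hG ▸ cont_wave _ hs _ fun k =>
    (((continuous_im.comp (continuous_const_smul _)).log fun z => (im_pos _).ne').const_mul
      l).add_const _
  have iG : ∀ a b : ℍ, MulAction.orbitRel Γ ℍ a b → G a = G b := by
    rintro _ b ⟨g, rfl⟩
    rw [hG, hG, ← (Equiv.mulRight g).tsum_eq fun k : Γ => √((k : SL(2, ℝ)) • b).im *
      cos (l * log ((k : SL(2, ℝ)) • b).im + C.arg)]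
    simp only [Equiv.coe_mulRight, Subgroup.coe_mul, mul_smul]
    rfl
  have eN : proj Γ '' {z | (C * eis Γ (1 / 2 + l * Complex.I) z).re = 0}
      = {q | Quotient.lift G iG q = 0} := by
    simp only [re_eis Γ hs, ← hG, mul_eq_zero, norm_eq_zero, hC, false_or]
    ext ⟨a⟩
    exact ⟨fun ⟨b, h, e⟩ => (iG _ _ (Quotient.exact e)).symm.trans h, fun h => ⟨a, h, rfl⟩⟩
  have cK : ∀ m, IsCompact (proj Γ '' closure (U m)) := fun m =>
    ((isCompact_closedBall z 1).of_isClosed_subset isClosed_closure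
      fun w hw => ((h2 m).2.1 hw).2.2).image continuous_quot_mk
  have cl : ∀ m, closure (proj Γ '' U m) ⊆ proj Γ '' closure (U m) := fun m =>
    closure_minimal (image_mono subset_closure) (cK m).isClosed
  have sub : ∀ m, connectedComponentIn {q | Quotient.lift G iG q = 0}ᶜ (proj Γ (p m))
      ⊆ proj Γ '' U m := fun m => comp_subset _ (cG.quotient_lift iG) _
    (isOpenMap_quotient_mk'_mul _ (h2 m).1) _ (mem_image_of_mem _ (h2 m).2.2.1) (h2 m).2.2.2.1
    fun q hq hq' => by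
      obtain ⟨w, hw, rfl⟩ := cl m hq
      exact (h2 m).2.2.2.2 w hw fun h => hq' (mem_image_of_mem _ h)
  refine ⟨Finset.univ.image fun m => connectedComponentIn {q | Quotient.lift G iG q = 0}ᶜ
    (proj Γ (p m)), ?_, fun D hD => ?_⟩
  · rw [Finset.card_image_of_injective _ fun m m' e => ?_]
    · simpa [sq] using h1
    · obtain ⟨w, hw, e'⟩ := sub m' (e.le (mem_connectedComponentIn (h2 m).2.2.2.1.ne'))
      obtain ⟨g, hg⟩ := Quotient.exact e'
      have a1 := ((h2 m).2.1 (subset_closure (h2 m).2.2.1)).2.1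
      have a2 := ((h2 m').2.1 (subset_closure hw)).2.1
      have := free g z (inj g ⟨w, ⟨p m, a1, hg⟩, a2⟩)
      simp only [this, one_smul] at hg
      exact h3 m m' w (hg ▸ (h2 m).2.2.1) hw
  · obtain ⟨m, -, rfl⟩ := Finset.mem_image.1 hD
    have := (closure_mono (sub m)).trans (cl m)
    exact ⟨⟨proj Γ (p m), eN ▸ (h2 m).2.2.2.1.ne', by rw [eN]⟩,
      (cK m).of_isClosed_subset isClosed_closure this,
      this.trans (image_mono fun w hw => ((h2 m).2.1 hw).1)⟩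

theorem fin_im {ι : Type*} (M : ι → SL(2, ℝ)) (hs : Summable fun k => √(M k • I).im) {ε : ℝ}
    (hε : 0 < ε) : {k | ε ≤ (M k • I).im}.Finite :=
  (eventually_cofinite.1 (hs.tendsto_cofinite_zero.eventually
    (gt_mem_nhds (sqrt_pos.2 hε)))).subset fun _ hk => not_lt.2 (sqrt_le_sqrt hk)

theorem eq_one (Γ : Subgroup SL(2, ℝ)) (free : ∀ (γ : Γ) (z : ℍ), γ • z = z → γ = 1)
    (hs : Summable fun k : Γ => √((k : SL(2, ℝ)) • I).im) (γ : Γ) (h : (γ : SL(2, ℝ)) 1 0 = 0) :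
    γ = 1 := by
  obtain ⟨⟨u, u0⟩, v, e⟩ := exists_SL2_smul_eq_of_apply_zero_one_eq_zero _ h
  have e1 : ∀ z : ℍ, (γ • z).im = u * z.im ∧ (γ • z).re = v + u * z.re := fun z => by
    have : γ • z = v +ᵥ ((⟨u, u0⟩ : {x : ℝ // 0 < x}) • z) := congrFun e z
    rw [this]
    simp
  have e2 : ∀ n : ℕ, ((γ ^ n • I : ℍ).im = u ^ n ∧ u ^ n * ((γ ^ n)⁻¹ • I : ℍ).im = 1) ∧
      (u = 1 → (γ ^ n • I : ℍ).re = n * v) := fun n => by
    induction n with
    | zero => simp
    | succ n ih =>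
      refine ⟨⟨by rw [pow_succ', mul_smul, (e1 _).1, ih.1.1, pow_succ'], ?_⟩, fun h => by
        rw [pow_succ', mul_smul, (e1 _).2, ih.2 h, h]; push_cast; ring⟩
      rw [pow_succ u, mul_assoc, ← (e1 _).1, ← mul_smul, pow_succ, mul_inv_rev,
        mul_inv_cancel_left, ih.1.2]
  obtain ⟨n, n0, hn⟩ : ∃ n, 0 < n ∧ γ ^ n = 1 := by
    refine isOfFinOrder_iff_pow_eq_one.1 (by_contra fun hc => ?_)
    have inj := injective_pow_iff_not_isOfFinOrder.2 hc
    rcases le_total 1 u with c | c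
    · exact (fin_im _ hs one_pos).not_infinite (infinite_of_injective_forall_mem inj fun n =>
        (one_le_pow₀ c).trans_eq (e2 n).1.1.symm)
    · refine (fin_im _ hs one_pos).not_infinite (infinite_of_injective_forall_mem
        (inv_injective.comp inj) fun n => ?_)
      exact (e2 n).1.2.symm.trans_le (mul_le_of_le_one_left (im_pos _).le (pow_le_one₀ u0.le c))
  have := e2 n
  rw [hn, one_smul] at this
  have u1 : u = 1 := (pow_eq_one_iff_of_nonneg u0.le n0.ne').1 this.1.1.symm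
  have v0 : v = 0 := by simpa [n0.ne'] using this.2 u1
  exact free γ I (emb.injective (Prod.ext (by simp [(e1 I).2, v0]) (by simp [(e1 I).1, u1])))

theorem pole_inj (Γ : Subgroup SL(2, ℝ)) (free : ∀ (γ : Γ) (z : ℍ), γ • z = z → γ = 1)
    (hs : Summable fun k : Γ => √((k : SL(2, ℝ)) • I).im) (k l : Γ)
    (h : (k : SL(2, ℝ)) 1 0 * (l : SL(2, ℝ)) 1 1 = (l : SL(2, ℝ)) 1 0 * (k : SL(2, ℝ)) 1 1) :
    k = l := by
  refine mul_inv_eq_one.1 (eq_one Γ free hs _ ?_)
  rw [Subgroup.coe_mul, Subgroup.coe_inv, Matrix.SpecialLinearGroup.coe_mul,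
    Matrix.SpecialLinearGroup.coe_inv]
  simp [Matrix.adjugate_fin_two, Matrix.mul_apply]
  linarith

end Pool.Agent.Lib.MP_e1e19a_an
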