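import Pool.Agent.Lib.MP_e1e19a_an.H26Model

/-!
The waves `z ↦ Im (γ z) ^ (1/2 + i λ)` on the upper half-plane: amplitudes, phases, directions.
-/

namespace Pool.Agent.Lib.MP_e1e19a_an

open Finset Real Filter Topology UpperHalfPlane
open scoped MatrixGroups

variable {ι : Type*}

/-- `|c z + d| ^ 2` in coordinates -/
noncomputable def QQ (γ : SL(2, ℝ)) (w : ℝ × ℝ) : ℝ := (γ 1 0 * w.1 + γ 1 1) ^ 2 + (γ 1 0 * w.2) ^ 2

/-- the phase function `log Im (γ z)` in coordinates -/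
noncomputable def ph (γ : SL(2, ℝ)) (w : ℝ × ℝ) : ℝ := log w.2 - log (QQ γ w)

/-- horizontal component of the direction of the wave -/
noncomputable def al (γ : SL(2, ℝ)) (w : ℝ × ℝ) : ℝ :=
  -2 * w.2 * γ 1 0 * (γ 1 0 * w.1 + γ 1 1) / QQ γ w

/-- vertical component of the direction of the wave -/
noncomputable def be (γ : SL(2, ℝ)) (w : ℝ × ℝ) : ℝ := 1 - 2 * (γ 1 0 * w.2) ^ 2 / QQ γ w

theorem det2 (γ : SL(2, ℝ)) : γ 0 0 * γ 1 1 - γ 0 1 * γ 1 0 = 1 := by
  rw [← Matrix.det_fin_two, γ.det_coe]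

theorem QQ_pos (γ : SL(2, ℝ)) {w : ℝ × ℝ} (h : 0 < w.2) : 0 < QQ γ w := by
  unfold QQ
  by_cases c : γ 1 0 = 0
  · have : γ 1 1 ≠ 0 := fun e => by simpa [c, e] using det2 γ
    simp only [c, zero_mul, zero_add]
    positivity
  · positivity

theorem im_eq (γ : SL(2, ℝ)) (z : ℍ) : (γ • z).im = z.im / QQ γ (z.re, z.im) := by
  have := UpperHalfPlane.im_smul_eq_div_normSq (Matrix.SpecialLinearGroup.mapGL ℝ γ) z
  rw [MulAction.compHom_smul_def, this]
  simp [QQ, denom, Complex.normSq_apply, sq]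

theorem log_im (γ : SL(2, ℝ)) (z : ℍ) : log (γ • z).im = ph γ (z.re, z.im) := by
  rw [im_eq, log_div z.im_pos.ne' (QQ_pos γ z.im_pos).ne', ph]

theorem ab_sq (γ : SL(2, ℝ)) {w : ℝ × ℝ} (h : 0 < w.2) : al γ w ^ 2 + be γ w ^ 2 = 1 := by
  have := (QQ_pos γ h).ne'
  unfold al be
  field_simp
  unfold QQ
  ring

theorem cont_QQ (γ : SL(2, ℝ)) : Continuous (QQ γ) := by unfold QQ; fun_prop

theorem cont_al (γ : SL(2, ℝ)) {w : ℝ × ℝ} (h : 0 < w.2) : ContinuousAt (al γ) w :=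
  ContinuousAt.div (by fun_prop) (cont_QQ γ).continuousAt (QQ_pos γ h).ne'

theorem cont_be (γ : SL(2, ℝ)) {w : ℝ × ℝ} (h : 0 < w.2) : ContinuousAt (be γ) w :=
  continuousAt_const.sub (ContinuousAt.div (by fun_prop) (cont_QQ γ).continuousAt (QQ_pos γ h).ne')

theorem ph_strict (γ : SL(2, ℝ)) {w : ℝ × ℝ} (h : 0 < w.2) {ε : ℝ} (hε : 0 < ε) :
    ∀ᶠ p : (ℝ × ℝ) × (ℝ × ℝ) in 𝓝 (w, w), |ph γ p.1 - ph γ p.2 -
      (al γ w * (p.1.1 - p.2.1) + be γ w * (p.1.2 - p.2.2)) / w.2| ≤ ε * ‖p.1 - p.2‖ := by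
  have f1 := hasStrictFDerivAt_fst (𝕜 := ℝ) (p := w)
  have f2 := hasStrictFDerivAt_snd (𝕜 := ℝ) (p := w)
  have hQ := (QQ_pos γ h).ne'
  have := ((f2.log h.ne').sub (((((f1.const_mul (γ 1 0)).add_const (γ 1 1)).pow 2).add
    ((f2.const_mul (γ 1 0)).pow 2)).log hQ)).isLittleO.def hε
  refine this.mono fun p hp => le_trans (le_of_eq ?_) hp
  rw [Real.norm_eq_abs]
  congr 1
  simp only [ph, al, be, Pi.sub_apply, Pi.add_apply, Pi.pow_apply]
  unfold QQ at hQ ⊢
  simp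
  field_simp
  ring

theorem amp_le (γ : SL(2, ℝ)) (z z' : ℍ) : √(γ • z').im ≤ exp (dist z' z) * √(γ • z).im := by
  have := im_le_im_mul_exp_dist (γ • z') (γ • z)
  rw [dist_smul] at this
  have h1 := one_le_exp (dist_nonneg (x := z') (y := z))
  refine sqrt_le_iff.2 ⟨by positivity, this.trans ?_⟩
  rw [mul_pow, sq_sqrt (im_pos _).le]
  nlinarith [mul_pos (im_pos (γ • z)) (exp_pos (dist z' z))]

theorem amp_close (γ : SL(2, ℝ)) (z z' : ℍ) :
    |√(γ • z').im - √(γ • z).im| ≤ (exp (dist z' z) - 1) * √(γ • z).im := by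
  have h1 := amp_le γ z z'
  have h2 := amp_le γ z' z
  rw [_root_.dist_comm] at h2
  have h3 := one_le_exp (dist_nonneg (x := z') (y := z))
  have h4 := sqrt_nonneg (γ • z).im
  refine abs_le.2 ⟨?_, by linarith⟩
  by_contra hc
  nlinarith [mul_nonneg h4 (sq_nonneg (exp (dist z' z) - 1))]

theorem cont_wave (M : ι → SL(2, ℝ)) (hs : Summable fun k => √(M k • I).im) (ψ : ι → ℍ → ℝ)
    (hψ : ∀ k, Continuous (ψ k)) : Continuous fun z : ℍ => ∑' k, √(M k • z).im * cos (ψ k z) := by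
  refine continuous_iff_continuousAt.2 fun z => (continuousOn_tsum (s := Metric.ball I (dist z I + 1))
    (fun k => Continuous.continuousOn (by fun_prop)) (hs.mul_left (exp (dist z I + 1)))
    fun k w hw => ?_).continuousAt (Metric.isOpen_ball.mem_nhds (by simp))
  rw [Real.norm_eq_abs, abs_mul, abs_of_nonneg (sqrt_nonneg _)]
  refine (mul_le_of_le_one_right (sqrt_nonneg _) (abs_cos_le_one _)).trans ((amp_le _ I w).trans ?_)
  gcongr
  exact le_of_lt hw

theorem summ (M : ι → SL(2, ℝ)) (hs : Summable fun k => √(M k • I).im) (z : ℍ) :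
    Summable fun k => √(M k • z).im :=
  (hs.mul_left _).of_nonneg_of_le (fun _ => sqrt_nonneg _) fun k => amp_le (M k) I z

open Polynomial in
theorem generic (M : ι → SL(2, ℝ)) (o : ι) (ho : M o = 1) (hc : ∀ k, k ≠ o → M k 1 0 ≠ 0)
    (hp : ∀ k l, M k 1 0 * M l 1 1 = M l 1 0 * M k 1 1 → k = l) (S : Finset ι) {y : ℝ} (hy : 0 < y) :
    Dense {x : ℝ | ∀ m : ι → ℤ, ∑ k ∈ S, m k * be (M k) (x, y) = 0 → ∀ k ∈ S, m k = 0} := by
  classical
  have fin : ∀ m : S → ℤ, m ≠ 0 → {x : ℝ | ∑ k, m k * be (M k) (x, y) = 0}.Finite := by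
    intro m hm
    obtain ⟨q, hq⟩ : ∃ q : S → ℂ[X], ∀ k z, (q k).eval z =
        (M k 1 0 * z + M k 1 1) ^ 2 + (M k 1 0 * y) ^ 2 :=
      ⟨fun k => (C (M k 1 0 : ℂ) * X + C (M k 1 1 : ℂ)) ^ 2 + C (((M k 1 0 : ℂ) * y) ^ 2),
        fun k z => by simp⟩
    obtain ⟨P, hP⟩ : ∃ P : ℂ[X], ∀ z, P.eval z = ∑ k, m k * ((q k).eval z - 2 * (M k 1 0 * y) ^ 2)
        * ∏ l ∈ univ.erase k, (q l).eval z :=
      ⟨∑ k, C (m k : ℂ) * (q k - C (2 * ((M k 1 0 : ℂ) * y) ^ 2)) * ∏ l ∈ univ.erase k, q l,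
        fun z => by simp [eval_finset_sum, eval_prod]⟩
    have hx : ∀ x : ℝ, P.eval (x : ℂ) = ((∏ k : S, QQ (M k) (x, y))
        * ∑ k, m k * be (M k) (x, y) : ℝ) := fun x => by
      have e : ∀ k, (q k).eval (x : ℂ) = (QQ (M k) (x, y) : ℝ) := fun k => by simp [hq, QQ]
      rw [hP, mul_sum]
      push_cast
      refine sum_congr rfl fun k _ => ?_
      have : ((QQ (M k) (x, y) : ℝ) : ℂ) ≠ 0 := Complex.ofReal_ne_zero.2 (QQ_pos _ hy).ne'
      simp only [e, be, ← mul_prod_erase _ _ (mem_univ k)]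
      push_cast
      field_simp
    have P0 : P ≠ 0 := by
      rintro rfl
      have m0 : ∀ k : S, (k : ι) ≠ o → m k = 0 := fun k hk => by
        have c0 : (M k 1 0 : ℂ) ≠ 0 := Complex.ofReal_ne_zero.2 (hc k hk)
        have y0 : (y : ℂ) ≠ 0 := Complex.ofReal_ne_zero.2 hy.ne'
        have q0 : (q k).eval (-(M k 1 1 / M k 1 0) + Complex.I * y : ℂ) = 0 := by
          rw [hq]
          field_simp
          linear_combination (M k 1 0 : ℂ) ^ 2 * y ^ 2 * Complex.I_sq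
        have := hP (-(M k 1 1 / M k 1 0) + Complex.I * y)
        rw [eval_zero, sum_eq_single k (fun l _ h => mul_eq_zero_of_right _ (prod_eq_zero
          (mem_erase.2 ⟨h.symm, mem_univ k⟩) q0)) (by simp), q0] at this
        rcases mul_eq_zero.1 this.symm with h | h
        · simpa [c0, y0, hc k hk, hy.ne'] using h
        · obtain ⟨l, hl, h⟩ := prod_eq_zero_iff.1 h
          rw [hq] at h
          have h2 : ((M l 1 0 * -(M k 1 1 / M k 1 0) + M l 1 1 : ℝ) : ℂ) *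
              ((M l 1 0 * -(M k 1 1 / M k 1 0) + M l 1 1 : ℝ) + (2 * M l 1 0 * y : ℝ) * Complex.I)
              = 0 := by
            push_cast
            linear_combination h - (M l 1 0 : ℂ) ^ 2 * y ^ 2 * Complex.I_sq
          have h3 : M l 1 0 * -(M k 1 1 / M k 1 0) + M l 1 1 = 0 := by
            rcases mul_eq_zero.1 h2 with h | h
            · exact_mod_cast h
            · simpa using congrArg Complex.re h
          have := hc k hk
          field_simp at h3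
          exact absurd (Subtype.ext (hp _ _ (by linarith))) (mem_erase.1 hl).1
      obtain ⟨k, hk⟩ := Function.ne_iff.1 hm
      have ko : (k : ι) = o := by_contra fun h => hk (m0 k h)
      have := hx 0
      rw [eval_zero, sum_eq_single k (fun l _ h => by
        rw [m0 l fun e => h (Subtype.ext (e.trans ko.symm))]; simp) (by simp), eq_comm,
        Complex.ofReal_eq_zero, mul_eq_zero] at this
      rcases this with h | h
      · exact (prod_pos fun _ _ => QQ_pos _ hy).ne' h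
      · simp [be, ko, ho] at h
        exact hk h
    refine ((P.rootSet_finite ℂ).preimage Complex.ofReal_injective.injOn).subset fun x hx' => ?_
    simp only [Set.mem_preimage, mem_rootSet, P0, ne_eq, not_false_eq_true, true_and, coe_aeval_eq_eval]
    rw [hx, show ∑ k, m k * be (M k) (x, y) = 0 from hx']
    simp
  refine (Set.Countable.dense_compl ℝ (Set.countable_iUnion fun m : {m : S → ℤ // m ≠ 0} =>
    (fin m.1 m.2).countable)).mono fun x hx m hm k hk => ?_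
  by_contra hk'
  refine hx (Set.mem_iUnion.2 ⟨⟨fun k => m k, Function.ne_iff.2 ⟨⟨k, hk⟩, hk'⟩⟩, ?_⟩)
  exact (sum_coe_sort S fun k => m k * be (M k) (x, y)).trans hm

end Pool.Agent.Lib.MP_e1e19a_an
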