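import Pool.Agent.Lib.MP_e1e19a_an.H26Core

/-!
At least `c λ ^ 2` compact nodal domains inside the interior of the convex core, when one term of
the Eisenstein series dominates at a point of the convex hull above a limit point.
-/

namespace Pool.Agent.Results.MP_e1e19a_an.CoreDomains

open Real UpperHalfPlane Pool.Agent.Lib.MP_e1e19a_an
open scoped MatrixGroups

theorem result (Γ : Subgroup SL(2, ℝ)) (h : Schottky Γ) (hδ : dimH (limitSet Γ) < 1 / 2)
    (a r b : ℝ) (ha : a ∈ limitSet Γ) (hr : r ∈ limitSet Γ) (hb : b ∈ limitSet Γ)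
    (h1 : a < r) (h2 : r < b) (z : ℍ) (z1 : z.re = r) (z2 : z.im ^ 2 = (r - a) * (b - r))
    (hz : ∑' γ : Γ, √(γ • z).im < 2 * √z.im ∨ limitSet Γ ⊆ Set.Icc a b ∧
      ∑' γ : Γ, exp (-dist z (γ • z) / 2) < 1 + z.im / (b - a)) :
    ∃ c > (0 : ℝ), ∃ l₀ : ℝ, ∀ l ≥ l₀, ∀ C : ℂ, C ≠ 0 →
      ∃ 𝒟 : Finset (Set (Surf Γ)), c * l ^ 2 ≤ 𝒟.card ∧ ∀ D ∈ 𝒟,
        IsNodalDomain Γ (fun z => (C * eis Γ (1 / 2 + l * Complex.I) z).re) D ∧
          IsCompact (closure D) ∧ closure D ⊆ interior (proj Γ '' hull (limitSet Γ)) := by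
  classical
  have := h.discrete
  have hs := summable_of_dim h hδ
  obtain ⟨R, hR⟩ := h.bdd.exists_norm_le
  have y0 := z.im_pos
  have s0 := sqrt_pos.2 y0
  have ab : 0 < b - a := by linarith
  have hz : ∑' γ : Γ, √(γ • z).im < 2 * √z.im := hz.elim id fun ⟨H, hz⟩ => by
    have S : Summable fun γ : Γ => √(γ • z).im := summ (fun k : Γ => (k : SL(2, ℝ))) hs z
    have sq : ∀ t : ℝ, exp (-t / 2) ^ 2 = (exp t)⁻¹ := fun t => by
      rw [← exp_nat_mul, ← exp_neg]; congr 1; push_cast; ring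
    have S' : Summable fun γ : Γ => exp (-dist z (γ • z) / 2) :=
      (S.div_const √z.im).of_nonneg_of_le (fun _ => (exp_pos _).le) fun γ => by
        rw [← sqrt_div (im_pos _).le]
        refine le_sqrt_of_sq_le ?_
        rw [sq, le_div_iff₀ y0, inv_mul_eq_div]
        exact im_div_exp_dist_le _ _
    obtain ⟨o, o1, o2⟩ : ∃ o : ℍ, o.re = (a + b) / 2 ∧ o.im = (b - a) / 2 :=
      ⟨⟨⟨_, _⟩, half_pos ab⟩, rfl, rfl⟩
    have key : ∀ w ∈ hull (limitSet Γ), exp (dist o w) * w.im ≤ b - a := fun w hw => by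
      have e1 := hw (-1) (a + b) (-(a * b)) fun x hx => by nlinarith [(H hx).1, (H hx).2]
      have e2 := (cosh_dist' o w).le
      have w0 := w.im_pos
      rw [norm_sq_eq] at e1
      rw [o1, o2, cosh_eq, le_div_iff₀ (by positivity)] at e2
      refine le_of_mul_le_mul_right ?_ (half_pos ab)
      nlinarith [mul_pos (exp_pos (-dist o w)) (mul_pos ab w0)]
    have hzz := chord_mem ha hb z (z1 ▸ z2)
    have bd : ∀ γ : Γ, √(γ • z).im ≤ √z.im * ((b - a) / z.im) * exp (-dist z (γ • z) / 2)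
        + if γ = 1 then √z.im * (1 - (b - a) / z.im) else 0 := fun γ => by
      split_ifs with e
      · simp [e, mul_sub]
      refine sqrt_le_iff.2 ⟨by positivity, ?_⟩
      rw [add_zero, mul_pow, sq, mul_pow, sq_sqrt y0.le, ← div_eq_mul_inv, le_div_iff₀ (exp_pos _),
        show z.im * ((b - a) / z.im) ^ 2 = (b - a) * (b - a) / z.im by field_simp, le_div_iff₀ y0]
      refine le_trans ?_ (mul_le_mul (key _ hzz) (key _ (hull_smul hR γ hzz))
        (mul_pos (exp_pos _) (im_pos _)).le ab.le)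
      have := exp_le_exp.2 (dist_triangle_left z (γ • z) o)
      rw [exp_add] at this
      nlinarith [mul_pos y0 (γ • z).im_pos]
    have S1 := hasSum_ite_eq (1 : Γ) (√z.im * (1 - (b - a) / z.im))
    refine (hasSum_le bd S.hasSum ((S'.hasSum.mul_left _).add S1)).trans_lt ?_
    refine (add_lt_add_left (mul_lt_mul_of_pos_left hz (by positivity)) _).trans_eq ?_
    field_simp
    ring
  obtain ⟨w, hw, H⟩ := core h hs ha hr hb h1 h2 z z1 z2 hz
  obtain ⟨c, c0, l₀, H⟩ := count_quot Γ h.free hs w H _ (isOpen_interior.mem_nhds hw)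
  refine ⟨c, c0, l₀, fun l hl C hC => (H l hl C hC).imp fun 𝒟 h => ⟨h.1, fun D hD =>
    ⟨(h.2 D hD).1, (h.2 D hD).2.1, (h.2 D hD).2.2.trans (interior_maximal
      (Set.image_mono interior_subset) (isOpenMap_quotient_mk'_mul _ isOpen_interior))⟩⟩⟩

end Pool.Agent.Results.MP_e1e19a_an.CoreDomains
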